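import Pool.Agent.Helper80.JB.Glue
import Pool.Agent.Helper38.SP.One
import Pool.Agent.Helper80.SP.Compact

/-!
# The energy modulo `m` of a set in `[0, m)`, and the mean without the element `0`
-/

set_option autoImplicit false

open Finset Filter

namespace Pool.Agent.Helper80.JB

open Pool.Agent.Helper25.RC (rep below mem_below)
open Pool.Agent.Helper5.RC (sol)
open Pool.Agent.Helper38.SP (quad)
open Pool.Agent.Helper80.SP (mean)

theorem two_fib_le {α γ : Type*} [DecidableEq α] [DecidableEq γ] (S : Finset α) (f g : α → γ) :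
    2 * #{p ∈ S ×ˢ S | f p.1 = g p.2} ≤
      #{p ∈ S ×ˢ S | f p.1 = f p.2} + #{p ∈ S ×ˢ S | g p.1 = g p.2} := by
  have hf : ∀ u ∈ S, f u ∈ S.image f ∪ S.image g := fun u hu =>
    mem_union_left _ (mem_image_of_mem _ hu)
  have hg : ∀ u ∈ S, g u ∈ S.image f ∪ S.image g := fun u hu =>
    mem_union_right _ (mem_image_of_mem _ hu)
  rw [card_fib S S f g _ hf, card_fib S S f f _ hf, card_fib S S g g _ hg, mul_sum,
    ← sum_add_distrib]
  refine sum_le_sum fun d _ => ?_
  have := two_mul_le_add_sq (#{u ∈ S | f u = d}) (#{v ∈ S | g v = d})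
  nlinarith

/-- the energy modulo `m` -/
theorem sol_le (m : ℕ) (B : Finset ℕ) (hB : ∀ b ∈ B, b < m) :
    (sol m B).card ≤ 3 * (quad B).card := by
  classical
  have hq : (quad B).card = #{p ∈ (B ×ˢ B) ×ˢ (B ×ˢ B) | p.1.1 + p.1.2 = p.2.1 + p.2.2} := rfl
  have h1 := two_fib_le (B ×ˢ B) (fun u : ℕ × ℕ => u.1 + u.2) (fun u : ℕ × ℕ => u.1 + u.2 + m)
  have h2 := two_fib_le (B ×ˢ B) (fun u : ℕ × ℕ => u.1 + u.2 + m) (fun u : ℕ × ℕ => u.1 + u.2)
  have e1 : #{p ∈ (B ×ˢ B) ×ˢ (B ×ˢ B) | p.1.1 + p.1.2 + m = p.2.1 + p.2.2 + m} =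
      (quad B).card := by
    rw [hq]
    congr 1
    refine filter_congr fun p _ => ?_
    omega
  beta_reduce at h1 h2
  rw [e1, ← hq] at h1 h2
  have hsub : sol m B ⊆ {p ∈ (B ×ˢ B) ×ˢ (B ×ˢ B) | p.1.1 + p.1.2 = p.2.1 + p.2.2} ∪
      {p ∈ (B ×ˢ B) ×ˢ (B ×ˢ B) | p.1.1 + p.1.2 = p.2.1 + p.2.2 + m} ∪
      {p ∈ (B ×ˢ B) ×ˢ (B ×ˢ B) | p.1.1 + p.1.2 + m = p.2.1 + p.2.2} := by
    intro p hp
    unfold Pool.Agent.Helper5.RC.sol at hp
    rw [mem_filter] at hp
    have hp1 := hp.1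
    rw [mem_product, mem_product, mem_product] at hp1
    have h3 := hB _ hp1.1.1
    have h4 := hB _ hp1.1.2
    have h5 := hB _ hp1.2.1
    have h6 := hB _ hp1.2.2
    have hm : 0 < m := by omega
    rw [mem_union, mem_union, mem_filter, mem_filter, mem_filter]
    have h7 := Nat.div_add_mod (p.1.1 + p.1.2) m
    have h8 := Nat.div_add_mod (p.2.1 + p.2.2) m
    have h9 : (p.1.1 + p.1.2) / m < 2 := by
      rw [Nat.div_lt_iff_lt_mul hm]
      omega
    have h10 : (p.2.1 + p.2.2) / m < 2 := by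
      rw [Nat.div_lt_iff_lt_mul hm]
      omega
    rw [hp.2] at h7
    generalize (p.1.1 + p.1.2) / m = a at h7 h9
    generalize (p.2.1 + p.2.2) / m = b at h8 h10
    interval_cases a <;> interval_cases b
    · exact Or.inl (Or.inl ⟨hp.1, by omega⟩)
    · exact Or.inr ⟨hp.1, by omega⟩
    · exact Or.inl (Or.inr ⟨hp.1, by omega⟩)
    · exact Or.inl (Or.inl ⟨hp.1, by omega⟩)
  have h3 := (card_le_card hsub).trans ((card_union_le _ _).trans
    (Nat.add_le_add_right (card_union_le _ _) _))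
  rw [← hq] at h3
  omega

/-- the element `0` does not change the limits of the means -/
theorem mean_zero {A A' : Set ℕ} (h : ∀ n, 1 ≤ n → (n ∈ A ↔ n ∈ A')) (h0 : 0 ∉ A')
    (hc : Tendsto (fun x : ℕ => (#(below A' x) : ℝ)) atTop atTop) {w : ℂ} {z : Circle}
    (hm : Tendsto (fun x : ℕ => (∑ n ∈ below A' x, (z : ℂ) ^ n) / #(below A' x)) atTop (nhds w)) :
    Tendsto (fun x : ℕ => mean A x z) atTop (nhds w) := by
  classical
  by_cases hA : 0 ∈ A
  · have hset : ∀ x : ℕ, 1 ≤ x → below A x = insert 0 (below A' x) := by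
      intro x hx
      ext n
      rw [mem_insert, mem_below, mem_below]
      constructor
      · rintro ⟨h1, h2⟩
        rcases Nat.eq_zero_or_pos n with h3 | h3
        · exact Or.inl h3
        · exact Or.inr ⟨h1, (h n h3).1 h2⟩
      · rintro (h1 | ⟨h1, h2⟩)
        · subst h1
          exact ⟨by omega, hA⟩
        · have h3 : 1 ≤ n := by
            rcases Nat.eq_zero_or_pos n with h3 | h3
            · subst h3; exact absurd h2 h0
            · exact h3
          exact ⟨h1, (h n h3).2 h2⟩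
    have hnot : ∀ x : ℕ, 0 ∉ below A' x := fun x hx => h0 (mem_below.1 hx).2
    have hcC : Tendsto (fun x : ℕ => ((#(below A' x) : ℝ) + 1)⁻¹) atTop (nhds 0) :=
      tendsto_inv_atTop_zero.comp (tendsto_atTop_add_const_right _ _ hc)
    have hcC' : Tendsto (fun x : ℕ => ((((#(below A' x) : ℝ) + 1)⁻¹ : ℝ) : ℂ)) atTop (nhds 0) := by
      have := (Complex.continuous_ofReal.tendsto 0).comp hcC
      rwa [Complex.ofReal_zero] at this
    have h1 : Tendsto (fun x : ℕ => (∑ n ∈ below A' x, (z : ℂ) ^ n) / #(below A' x) *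
        (1 - ((((#(below A' x) : ℝ) + 1)⁻¹ : ℝ) : ℂ)) + ((((#(below A' x) : ℝ) + 1)⁻¹ : ℝ) : ℂ))
        atTop (nhds (w * (1 - 0) + 0)) :=
      (hm.mul (tendsto_const_nhds.sub hcC')).add hcC'
    rw [sub_zero, mul_one, add_zero] at h1
    refine h1.congr' ?_
    filter_upwards [eventually_ge_atTop 1, hc.eventually_gt_atTop 0] with x hx hx0
    unfold Pool.Agent.Helper80.SP.mean
    rw [hset x hx, sum_insert (hnot x), card_insert_of_notMem (hnot x), pow_zero]
    have hne : ((#(below A' x) : ℕ) : ℂ) ≠ 0 := by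
      intro h2
      have : (#(below A' x) : ℕ) = 0 := by exact_mod_cast h2
      rw [this, Nat.cast_zero] at hx0
      exact lt_irrefl _ hx0
    have hne1 : ((#(below A' x) : ℕ) : ℂ) + 1 ≠ 0 := by
      have : ((#(below A' x) + 1 : ℕ) : ℂ) ≠ 0 := Nat.cast_ne_zero.2 (Nat.succ_ne_zero _)
      push_cast at this
      exact this
    push_cast
    field_simp
    ring
  · have hset : ∀ x : ℕ, below A x = below A' x := by
      intro x
      ext n
      rw [mem_below, mem_below]
      rcases Nat.eq_zero_or_pos n with h3 | h3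
      · subst h3
        exact ⟨fun h1 => absurd h1.2 hA, fun h1 => absurd h1.2 h0⟩
      · rw [h n h3]
    refine hm.congr fun x => ?_
    unfold Pool.Agent.Helper80.SP.mean
    rw [hset]

end Pool.Agent.Helper80.JB
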