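import Pool.Agent.Helper80.JB.Blk
import Pool.Agent.Helper80.JB.Mod

/-!
# A basis with prescribed limits at all positions
-/

set_option autoImplicit false

open Finset Filter
open scoped ComplexConjugate ComplexOrder

namespace Pool.Agent.Helper80.JB

open Pool.Agent.Helper25.RC (below mem_below rep)
open Pool.Agent.Helper5.RC (sol blk mem_blk AA)
open Pool.Agent.Helper80.RC (chain_two)
open Pool.Agent.Helper80.SP (mean)
open Pool.Agent.Helper38.SP (PosDef quad)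
open Pool.Agent.Helper38.JB (IsJ OneY)

theorem sum_union_est (B G : Finset ℕ) (y : ℕ) (f : ℕ → ℂ) (hf : ∀ n, ‖f n‖ ≤ 1) :
    ‖∑ a ∈ (B ∪ G).filter (fun a => a < y), f a -
      (∑ a ∈ B.filter (fun a => a < y), f a + ∑ a ∈ G.filter (fun a => a < y), f a)‖ ≤
      #(B ∩ G) := by
  have h1 : ∑ a ∈ B.filter (fun a => a < y) ∪ G.filter (fun a => a < y), f a +
      ∑ a ∈ B.filter (fun a => a < y) ∩ G.filter (fun a => a < y), f a =
      ∑ a ∈ B.filter (fun a => a < y), f a + ∑ a ∈ G.filter (fun a => a < y), f a :=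
    sum_union_inter
  rw [filter_union, ← h1]
  have h2 : ∀ X Y : ℂ, X - (X + Y) = -Y := fun X Y => by ring
  rw [h2, norm_neg]
  refine (norm_sum_le _ _).trans ((sum_le_sum fun n _ => hf n).trans ?_)
  rw [sum_const, nsmul_eq_mul, mul_one]
  have h3 : B.filter (fun a => a < y) ∩ G.filter (fun a => a < y) ⊆ B ∩ G :=
    inter_subset_inter (filter_subset _ _) (filter_subset _ _)
  exact_mod_cast card_le_card h3

/-- the discrepancy of a block -/
theorem blk_est (B G : Finset ℕ) (j : ℕ) (hBG : ∀ a ∈ B ∪ G, a < 2 ^ j) (z : Circle) (w : ℂ)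
    (T : ℕ → ℝ) (e : ℝ) (hcap : (#(B ∩ G) : ℝ) ≤ e)
    (hz : ∀ y ≤ 2 ^ j, ‖∑ a ∈ B.filter (fun a => a < y), (z : ℂ) ^ (2 ^ j + a) +
      ∑ a ∈ G.filter (fun a => a < y), (z : ℂ) ^ (2 ^ j + a) - w * (T y : ℂ)‖ ≤ e)
    (h1 : ∀ y ≤ 2 ^ j, ‖∑ a ∈ B.filter (fun a => a < y), ((1 : Circle) : ℂ) ^ (2 ^ j + a) +
      ∑ a ∈ G.filter (fun a => a < y), ((1 : Circle) : ℂ) ^ (2 ^ j + a) - 1 * (T y : ℂ)‖ ≤ e)
    (y : ℕ) :
    ‖∑ a ∈ (B ∪ G).filter (fun a => a < y), (z : ℂ) ^ (2 ^ j + a) -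
        w * #((B ∪ G).filter (fun a => a < y))‖ ≤ (2 + 2 * ‖w‖) * e := by
  have hmin : (B ∪ G).filter (fun a => a < y) = (B ∪ G).filter (fun a => a < min y (2 ^ j)) := by
    refine filter_congr fun a ha => ?_
    have := hBG a ha
    rw [lt_min_iff]
    exact ⟨fun h => ⟨h, this⟩, fun h => h.1⟩
  rw [hmin]
  obtain ⟨u, hu⟩ : ∃ u, u = min y (2 ^ j) := ⟨_, rfl⟩
  rw [← hu]
  have huj : u ≤ 2 ^ j := by rw [hu]; exact min_le_right _ _
  have h2 := sum_union_est B G u (fun a => (z : ℂ) ^ (2 ^ j + a)) fun n => by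
    rw [norm_pow, Circle.norm_coe, one_pow]
  have h3 := sum_union_est B G u (fun a => ((1 : Circle) : ℂ) ^ (2 ^ j + a)) fun n => by
    rw [norm_pow, Circle.norm_coe, one_pow]
  have h4 := hz u huj
  have h5 := h1 u huj
  have h6 : ∑ a ∈ (B ∪ G).filter (fun a => a < u), ((1 : Circle) : ℂ) ^ (2 ^ j + a) =
      #((B ∪ G).filter (fun a => a < u)) := by
    simp
  rw [h6] at h3
  generalize ∑ a ∈ (B ∪ G).filter (fun a => a < u), (z : ℂ) ^ (2 ^ j + a) = X at h2 ⊢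
  generalize (#((B ∪ G).filter (fun a => a < u)) : ℂ) = X1 at h3 ⊢
  generalize ∑ a ∈ B.filter (fun a => a < u), (z : ℂ) ^ (2 ^ j + a) +
      ∑ a ∈ G.filter (fun a => a < u), (z : ℂ) ^ (2 ^ j + a) = S at h2 h4
  generalize ∑ a ∈ B.filter (fun a => a < u), ((1 : Circle) : ℂ) ^ (2 ^ j + a) +
      ∑ a ∈ G.filter (fun a => a < u), ((1 : Circle) : ℂ) ^ (2 ^ j + a) = S1 at h3 h5
  have h7 : X - w * X1 = (X - S) + (S - w * (T u : ℂ)) -
      w * ((X1 - S1) + (S1 - 1 * (T u : ℂ))) := by ring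
  rw [h7]
  have h8 : ‖(X - S) + (S - w * (T u : ℂ))‖ ≤ 2 * e := by
    refine (norm_add_le _ _).trans ?_
    linarith
  have h9 : ‖w * ((X1 - S1) + (S1 - 1 * (T u : ℂ)))‖ ≤ ‖w‖ * (2 * e) := by
    rw [norm_mul]
    refine mul_le_mul_of_nonneg_left ((norm_add_le _ _).trans ?_) (norm_nonneg w)
    linarith
  refine (norm_sub_le _ _).trans ?_
  linarith

/-- the union of the blocks -/
theorem mem_AA_union {B : ℕ → Finset ℕ} {J : Set ℕ} {n : ℕ} (hn : 1 ≤ n) :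
    n ∈ AA (fun j => 2 ^ j) (fun j => B j ∪ GG J j) ↔ n ∈ J ∨ n ∈ AA (fun j => 2 ^ j) B := by
  constructor
  · rintro ⟨j, hj⟩
    rw [mem_blk] at hj
    simp only [mem_union] at hj
    rcases hj.2 with h | h
    · exact Or.inr ⟨j, mem_blk.2 ⟨hj.1, h⟩⟩
    · left
      rw [mem_GG] at h
      have h2 : 2 ^ j + (n - 2 ^ j) = n := by omega
      rw [h2] at h
      exact h.2
  · rintro (h | ⟨j, hj⟩)
    · have h1 : 2 ^ Nat.log 2 n ≤ n := Nat.pow_log_le_self 2 (by omega)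
      have h2 : n < 2 ^ (Nat.log 2 n + 1) := Nat.lt_pow_succ_log_self (by norm_num) n
      rw [pow_succ] at h2
      refine ⟨Nat.log 2 n, mem_blk.2 ⟨h1, mem_union_right _ (mem_GG.2 ⟨by simp only; omega, ?_⟩)⟩⟩
      have h3 : 2 ^ Nat.log 2 n + (n - 2 ^ Nat.log 2 n) = n := by omega
      simp only
      rw [h3]
      exact h
    · rw [mem_blk] at hj
      exact ⟨j, mem_blk.2 ⟨hj.1, mem_union_left _ hj.2⟩⟩

theorem zero_notMem_AA (C : ℕ → Finset ℕ) : 0 ∉ AA (fun j => 2 ^ j) C := by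
  rintro ⟨j, hj⟩
  rw [mem_blk] at hj
  have h1 := hj.1
  simp only at h1
  have h2 : 0 < 2 ^ j := by positivity
  omega

/-- from a thick set to all positions -/
theorem count_all {A A' : Set ℕ} (hev : ∀ᶠ x : ℕ in atTop, 1 / 2 * √x ≤ #(below A x))
    (h : ∀ n, 1 ≤ n → (n ∈ A ↔ n ∈ A')) (h1 : 1 ∈ A') :
    ∃ c : ℝ, 0 < c ∧ ∀ x : ℕ, 2 ≤ x → c * √x ≤ #(below A' x) := by
  classical
  obtain ⟨X, hX⟩ := eventually_atTop.1 hev
  refine ⟨min (1 / 4) (1 / (√X + 1)), lt_min (by norm_num) (by positivity), fun x hx => ?_⟩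
  have hone : 1 ≤ #(below A' x) := card_pos.2 ⟨1, mem_below.2 ⟨by omega, h1⟩⟩
  have hone' : (1 : ℝ) ≤ #(below A' x) := by exact_mod_cast hone
  rcases le_or_gt X x with hx' | hx'
  · have h2 := hX x hx'
    have h3 : below A x ⊆ insert 0 (below A' x) := by
      intro n hn
      rw [mem_below] at hn
      rw [mem_insert, mem_below]
      rcases Nat.eq_zero_or_pos n with h4 | h4
      · exact Or.inl h4
      · exact Or.inr ⟨hn.1, (h n h4).1 hn.2⟩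
    have h4 := (card_le_card h3).trans (card_insert_le _ _)
    have h5 : (#(below A x) : ℝ) ≤ #(below A' x) + 1 := by exact_mod_cast h4
    have h6 : min (1 / 4) (1 / (√X + 1)) * √x ≤ 1 / 4 * √x :=
      mul_le_mul_of_nonneg_right (min_le_left _ _) (Real.sqrt_nonneg _)
    linarith
  · have h2 : √(x : ℝ) ≤ √X := Real.sqrt_le_sqrt (by exact_mod_cast hx'.le)
    have h3 : min (1 / 4) (1 / (√X + 1)) * √x ≤ 1 / (√X + 1) * (√X + 1) :=
      mul_le_mul (min_le_right _ _) (by linarith) (Real.sqrt_nonneg _) (by positivity)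
    have h4 : 1 / (√(X : ℝ) + 1) * (√X + 1) = 1 := by
      rw [one_div, inv_mul_cancel₀]
      have := Real.sqrt_nonneg (X : ℝ)
      linarith
    linarith

open Classical in
/-- **a basis with prescribed limits** -/
theorem all_x (hY : OneY) (Z : Subgroup Circle) (hZ : (Z : Set Circle).Countable) {J : Set ℕ}
    {K : ℝ} (hJ : IsJ Z J K) (φ : Circle → ℂ) (h1 : φ 1 = 1)
    (hs : Summable fun z : Z => ‖φ z‖ ^ 4) (t : ℝ) (ht0 : 0 < t)
    (ht : PosDef (Z : Set Circle) fun z => φ z - if z = 1 then (t : ℂ) else 0) :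
    ∃ (A : Set ℕ) (c C : ℝ), 0 < c ∧ (∀ᶠ n : ℕ in atTop, 1 ≤ rep A n) ∧
      (∀ x : ℕ, 2 ≤ x → c * √x ≤ #(below A x)) ∧
      (∀ x : ℕ, ∑ n ∈ range x, (rep A n : ℝ) ^ 2 ≤ C * x) ∧
      ∀ z ∈ Z, Tendsto (fun x : ℕ => mean A x z) atTop (nhds (φ z)) := by
  obtain ⟨Θ, D, hΘ, hD, hone⟩ := oneY_all hY Z hJ φ h1 hs ht0 ht
  obtain ⟨hJ1, hJ2, _, _⟩ := hJ
  obtain ⟨zs, hzs⟩ := hZ.exists_eq_range ⟨1, Z.one_mem⟩
  have hzsZ : ∀ i, zs i ∈ Z := by
    intro i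
    have : zs i ∈ (Z : Set Circle) := by rw [hzs]; exact ⟨i, rfl⟩
    exact this
  -- the slow function
  obtain ⟨P, hP⟩ : ∃ P : ℕ → ℕ → Prop, P = fun s j => ∃ B : Finset ℕ,
      (∀ b ∈ B, b < 2 ^ j) ∧ ((quad B).card : ℝ) ≤ D * 2 ^ j ∧
      ((B ∩ GG J j).card : ℝ) ≤ √((2 : ℝ) ^ j) / ((s + 1 : ℕ) : ℝ) ∧
      ∀ z : Circle, z = 1 ∨ z ∈ (range (s + 1)).image zs → ∀ y ≤ 2 ^ j,
        ‖∑ a ∈ B.filter (fun a => a < y), (z : ℂ) ^ (2 ^ j + a) +
          ∑ a ∈ (GG J j).filter (fun a => a < y), (z : ℂ) ^ (2 ^ j + a) -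
          φ z * ((Θ * y / √((2 : ℝ) ^ j) : ℝ) : ℂ)‖ ≤ √((2 : ℝ) ^ j) / ((s + 1 : ℕ) : ℝ) :=
    ⟨_, rfl⟩
  have hPev : ∀ s, ∀ᶠ j in atTop, P s j := by
    intro s
    rw [hP]
    refine hone ((range (s + 1)).image zs) (fun z hz => ?_) (s + 1) (Nat.succ_pos s)
    rw [mem_image] at hz
    obtain ⟨i, _, rfl⟩ := hz
    exact hzsZ i
  obtain ⟨σ, hσ⟩ : ∃ σ : ℕ → ℕ, σ = fun j => Nat.findGreatest (fun s => P s j) j := ⟨_, rfl⟩
  obtain ⟨J0, hJ0⟩ := eventually_atTop.1 (hPev 0)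
  obtain ⟨j0, hj0⟩ : ∃ j0, j0 = max J0 1 := ⟨_, rfl⟩
  have hj01 : 1 ≤ j0 := by rw [hj0]; exact le_max_right _ _
  have hσP : ∀ j, j0 ≤ j → P (σ j) j := by
    intro j hj
    rw [hσ]
    refine Nat.findGreatest_spec (P := fun s => P s j) (Nat.zero_le j) (hJ0 j ?_)
    rw [hj0] at hj
    exact (le_max_left _ _).trans hj
  have hσlim : ∀ s, ∀ᶠ j in atTop, s ≤ σ j := by
    intro s
    filter_upwards [hPev s, eventually_ge_atTop s] with j h1 h2
    rw [hσ]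
    exact Nat.le_findGreatest h2 h1
  -- the blocks
  have hex : ∀ j, ∃ B : Finset ℕ, (j0 ≤ j → (∀ b ∈ B, b < 2 ^ j) ∧
      ((quad B).card : ℝ) ≤ D * 2 ^ j ∧
      ((B ∩ GG J j).card : ℝ) ≤ √((2 : ℝ) ^ j) / ((σ j + 1 : ℕ) : ℝ) ∧
      ∀ z : Circle, z = 1 ∨ z ∈ (range (σ j + 1)).image zs → ∀ y ≤ 2 ^ j,
        ‖∑ a ∈ B.filter (fun a => a < y), (z : ℂ) ^ (2 ^ j + a) +
          ∑ a ∈ (GG J j).filter (fun a => a < y), (z : ℂ) ^ (2 ^ j + a) -
          φ z * ((Θ * y / √((2 : ℝ) ^ j) : ℝ) : ℂ)‖ ≤ √((2 : ℝ) ^ j) / ((σ j + 1 : ℕ) : ℝ)) ∧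
      (¬ j0 ≤ j → B = {0}) := by
    intro j
    by_cases hj : j0 ≤ j
    · have h1 := hσP j hj
      rw [hP] at h1
      obtain ⟨B, hB⟩ := h1
      exact ⟨B, fun _ => hB, fun h => absurd hj h⟩
    · exact ⟨{0}, fun h => absurd h hj, fun _ => rfl⟩
  choose B hB1 hB2 using hex
  have hBr : ∀ j, ∀ b ∈ B j, b < 2 ^ j := by
    intro j
    by_cases hj : j0 ≤ j
    · exact (hB1 j hj).1
    · rw [hB2 j hj]
      intro b hb
      rw [mem_singleton.1 hb]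
      positivity
  have hE : ∀ j, ((sol ((fun j => 2 ^ j) j) (B j)).card : ℝ) ≤
      max (3 * D) 1 * (((fun j => 2 ^ j) j : ℕ) : ℝ) := by
    intro j
    push_cast
    by_cases hj : j0 ≤ j
    · have h2 : ((sol (2 ^ j) (B j)).card : ℝ) ≤ 3 * ((quad (B j)).card : ℝ) := by
        exact_mod_cast sol_le (2 ^ j) (B j) (hBr j)
      have h3 := (hB1 j hj).2.1
      have h4 : 3 * D * 2 ^ j ≤ max (3 * D) 1 * 2 ^ j :=
        mul_le_mul_of_nonneg_right (le_max_left _ _) (by positivity)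
      linarith
    · rw [hB2 j hj]
      refine (Pool.Agent.Helper80.RC.sol_zero j).trans ?_
      have h1 : (1 : ℝ) ≤ 2 ^ j := one_le_pow₀ (by norm_num)
      have h2 : (1 : ℝ) ≤ max (3 * D) 1 := le_max_right _ _
      nlinarith
  have hms : ∀ x : ℕ, ∑ n ∈ range x, (rep (AA (fun j => 2 ^ j) B) n : ℝ) ^ 2 ≤
      2401 * max (3 * D) 1 * x := by
    intro x
    have h2 := Pool.Agent.Helper5.RC.mean_square chain_two hE x
    refine le_trans (le_of_eq ?_) h2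
    exact sum_congr rfl fun n _ => by rw [Pool.Agent.Helper80.RC.rep_eq]
  -- the set
  obtain ⟨A, hA⟩ : ∃ A : Set ℕ, A = J ∪ AA (fun j => 2 ^ j) B := ⟨_, rfl⟩
  obtain ⟨A', hA'⟩ : ∃ A' : Set ℕ, A' = AA (fun j => 2 ^ j) (fun j => B j ∪ GG J j) := ⟨_, rfl⟩
  have hiff : ∀ n, 1 ≤ n → (n ∈ A ↔ n ∈ A') := by
    intro n hn
    rw [hA, hA', mem_AA_union hn]
    exact Iff.rfl
  have h0 : 0 ∉ A' := by
    rw [hA']
    exact zero_notMem_AA _
  have hbas : ∀ᶠ n : ℕ in atTop, 1 ≤ rep A n := by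
    filter_upwards [hJ2] with n hn
    refine hn.trans ?_
    unfold Pool.Agent.Helper25.RC.rep
    refine card_le_card fun p hp => ?_
    rw [mem_filter] at hp ⊢
    rw [hA]
    exact ⟨hp.1, Or.inl hp.2.1, Or.inl hp.2.2⟩
  have h1A' : 1 ∈ A' := by
    rw [← hiff 1 le_rfl, hA]
    right
    refine ⟨0, mem_blk.2 ⟨by simp, ?_⟩⟩
    rw [hB2 0 (by omega)]
    simp
  obtain ⟨c, hc0, hc⟩ := count_all (basis_thick hbas) hiff h1A'
  refine ⟨A, c, 12 * (K + 2401 * max (3 * D) 1), hc0, hbas, ?_, ?_, ?_⟩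
  · intro x hx
    refine (hc x hx).trans ?_
    have h2 : below A' x ⊆ below A x := by
      intro n hn
      rw [mem_below] at hn ⊢
      refine ⟨hn.1, ?_⟩
      rcases Nat.eq_zero_or_pos n with h3 | h3
      · rw [h3] at hn
        exact absurd hn.2 h0
      · exact (hiff n h3).2 hn.2
    exact_mod_cast card_le_card h2
  · intro x
    rw [hA]
    exact mean_square_union hJ1 hms x
  · intro z hz
    have hcC : Tendsto (fun x : ℕ => (#(below A' x) : ℝ)) atTop atTop := by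
      have h2 : Tendsto (fun x : ℕ => c * √(x : ℝ)) atTop atTop :=
        (Real.tendsto_sqrt_atTop.comp tendsto_natCast_atTop_atTop).const_mul_atTop hc0
      refine tendsto_atTop_mono' _ ?_ h2
      filter_upwards [eventually_ge_atTop 2] with x hx
      exact hc x hx
    refine mean_zero hiff h0 hcC ?_
    have hz' : z ∈ Set.range zs := by rw [← hzs]; exact hz
    obtain ⟨i, rfl⟩ := hz'
    rw [hA'] at hc ⊢
    have hCr : ∀ j, B j ∪ GG J j ⊆ range (2 ^ j) := by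
      intro j a ha
      rw [mem_union, mem_GG] at ha
      rw [mem_range]
      rcases ha with ha | ha
      · exact hBr j a ha
      · exact ha.1
    refine Pool.Agent.Helper80.SP.tendsto_dist (fun j => B j ∪ GG J j) hCr c hc0 hc (φ (zs i))
      (zs i) fun ε hε => ?_
    obtain ⟨s, hs⟩ : ∃ s : ℕ, (2 + 2 * ‖φ (zs i)‖) / ε ≤ s := exists_nat_ge _
    filter_upwards [hσlim (max i s), eventually_ge_atTop j0] with j h2 h3 y
    obtain ⟨g1, g2, g3, g4⟩ := hB1 j h3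
    have hi : zs i ∈ (range (σ j + 1)).image zs :=
      mem_image_of_mem _ (mem_range.2 (Nat.lt_succ_of_le ((le_max_left _ _).trans h2)))
    have h5 := blk_est (B j) (GG J j) j (fun a ha => mem_range.1 (hCr j ha)) (zs i) (φ (zs i))
      (fun y => Θ * y / √((2 : ℝ) ^ j)) _ g3 (g4 (zs i) (Or.inr hi)) (fun y hy => by
        have h6 := g4 1 (Or.inl rfl) y hy
        rw [h1] at h6
        exact h6) y
    refine h5.trans ?_
    have h6 : (s : ℝ) ≤ σ j := by exact_mod_cast (le_max_right _ _).trans h2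
    have h7 : (2 + 2 * ‖φ (zs i)‖) ≤ ε * ((σ j + 1 : ℕ) : ℝ) := by
      rw [div_le_iff₀ hε] at hs
      push_cast
      nlinarith
    have h8 : (0 : ℝ) < ((σ j + 1 : ℕ) : ℝ) := by positivity
    rw [mul_div_assoc', div_le_iff₀ h8]
    have h9 : 0 ≤ √((2 : ℝ) ^ j) := Real.sqrt_nonneg _
    nlinarith

end Pool.Agent.Helper80.JB
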