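import Pool.Agent.Helper80.JB.Cells

/-!
# One scale above a given set
-/

set_option autoImplicit false

open Finset Filter
open scoped ComplexConjugate ComplexOrder

namespace Pool.Agent.Helper80.JB

open Pool.Agent.Helper38.SP
open Pool.Agent.Helper38.JB (OneY)
open Pool.Agent.Helper80.SP (energyW meanW cs cs_nonneg)

theorem card_le_of_short {G : Finset ℕ} {N : ℕ} {K sm : ℝ} (hG : ∀ a ∈ G, a < N)
    (h : ∀ u v : ℕ, u ≤ v → v ≤ N → ((G.filter fun a => u ≤ a ∧ a < v).card : ℝ) ≤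
      K * (((v : ℝ) - u) / sm + 1)) {L : ℕ} (hL : 0 < L) (hN : L ∣ N) (k : ℕ) (hK : 0 ≤ K)
    (hsm : 0 < sm) :
    (#(G.filter fun c => c / L = k) : ℝ) ≤ K * (L / sm + 1) := by
  obtain ⟨K0, rfl⟩ := hN
  rcases Nat.lt_or_ge k K0 with hk | hk
  · have h1 := h (L * k) (L * (k + 1)) (Nat.mul_le_mul_left L (Nat.le_succ k))
      (Nat.mul_le_mul_left L hk)
    have h2 : G.filter (fun c => c / L = k) = G.filter fun a => L * k ≤ a ∧ a < L * (k + 1) := by
      refine filter_congr fun a _ => ?_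
      rw [mul_comm L k, mul_comm L (k + 1), ← Nat.le_div_iff_mul_le hL, ← Nat.div_lt_iff_lt_mul hL]
      omega
    rw [h2]
    refine h1.trans (le_of_eq ?_)
    push_cast
    ring
  · have h2 : G.filter (fun c => c / L = k) = ∅ := by
      refine filter_eq_empty_iff.2 fun a ha h3 => ?_
      have h4 := hG a ha
      have h5 : a / L < K0 := by
        rw [Nat.div_lt_iff_lt_mul hL, mul_comm]
        exact h4
      omega
    rw [h2, card_empty, Nat.cast_zero]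
    positivity

theorem oneY : OneY := by
  classical
  intro Z φ hpd h1 Φ hΦ t ht0 ht K hK
  have hΦ0 : 0 ≤ Φ := by
    have := hΦ ∅ (by simp)
    simpa using this
  obtain ⟨Θ, hΘe⟩ : ∃ Θ : ℝ, Θ = 2 * K / t + 1 := ⟨_, rfl⟩
  have hΘ : 0 < Θ := by rw [hΘe]; positivity
  have hΘt : 2 * K ≤ Θ * t := by
    rw [hΘe, add_mul, div_mul_cancel₀ _ ht0.ne']
    linarith
  obtain ⟨E0, hE0⟩ : ∃ E0 : ℝ, E0 = Θ ^ 4 * (4 * Φ + 1) + 16 * Θ ^ 2 + 8 * Θ := ⟨_, rfl⟩
  have hE0p : 0 < E0 := by rw [hE0]; positivity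
  refine ⟨Θ, 4 * E0, hΘ, by positivity, fun F hF s hs S hSne hSZ hfol => ?_⟩
  have hsR : (1 : ℝ) ≤ s := by exact_mod_cast hs
  obtain ⟨D, hD⟩ : ∃ D : Finset Circle, D = Df S := ⟨_, rfl⟩
  have hDZ : ∀ η ∈ D, η ∈ Z := by
    intro η hη
    rw [hD] at hη
    obtain ⟨p, hp, rfl⟩ := mem_image.1 hη
    rw [mem_product] at hp
    exact Z.div_mem (hSZ _ hp.1) (hSZ _ hp.2)
  have hφ1 : ∀ η ∈ Z, ‖φ η‖ ≤ 1 := fun η hη => norm_le_one hpd h1 Z.one_mem hη
  obtain ⟨C1, hC1, hen⟩ := energyW D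
  have hmean := fun ζ => meanW D ζ
  choose Cz hCz hmeanW using hmean
  obtain ⟨F', hF'⟩ : ∃ F' : Finset Circle, F' = insert 1 F := ⟨_, rfl⟩
  have hF'Z : ∀ ζ ∈ F', ζ ∈ Z := by
    intro ζ hζ
    rw [hF'] at hζ
    rcases mem_insert.1 hζ with h | h
    · rw [h]; exact Z.one_mem
    · exact hF ζ h
  obtain ⟨C, hC⟩ : ∃ C : ℝ, C = ∑ ζ ∈ F', (Cz ζ + cs ζ) := ⟨_, rfl⟩
  have hC0 : 0 ≤ C := by
    rw [hC]
    exact Finset.sum_nonneg (fun ζ _ => add_nonneg (hCz ζ) (cs_nonneg ζ))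
  have hCle' : ∀ ζ ∈ F', Cz ζ + cs ζ ≤ C := fun ζ hζ => by
    rw [hC]
    exact Finset.single_le_sum (f := fun ζ => Cz ζ + cs ζ)
      (fun i _ => add_nonneg (hCz i) (cs_nonneg i)) hζ
  have hCle : ∀ ζ ∈ F', Cz ζ ≤ C := fun ζ hζ => by
    have := hCle' ζ hζ
    have := cs_nonneg ζ
    linarith
  have hCcs : ∀ ζ ∈ F', cs ζ ≤ C := fun ζ hζ => by
    have := hCle' ζ hζ
    have := hCz ζ
    linarith
  -- the number of cells
  obtain ⟨κ, hκ⟩ : ∃ κ : ℕ, 32 * Θ * s ≤ (2 : ℝ) ^ κ := by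
    obtain ⟨κ, hκ⟩ := pow_unbounded_of_one_lt (32 * Θ * s) (by norm_num : (1 : ℝ) < 2)
    exact ⟨κ, hκ.le⟩
  obtain ⟨cnt, hcnt⟩ : ∃ cnt : ℝ, cnt = (F'.card : ℝ) * ((2 ^ κ + 1 : ℕ) : ℝ) + 1 := ⟨_, rfl⟩
  have hcnt0 : 0 < cnt := by rw [hcnt]; positivity
  obtain ⟨X, hX⟩ : ∃ X : ℝ, X = 1 + Θ * D.card + C + 4 * C1 + 48 * s * (Θ * C) +
      4 * s * (Θ * D.card * K) + 1024 * (s ^ 2 * (cnt * Θ)) + 32 * s * (2 ^ κ * (K * C)) :=
    ⟨_, rfl⟩
  have htend : Tendsto (fun j : ℕ => √((2 : ℝ) ^ j)) atTop atTop :=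
    Real.tendsto_sqrt_atTop.comp (tendsto_pow_atTop_atTop_of_one_lt (by norm_num))
  filter_upwards [htend.eventually_ge_atTop X, eventually_ge_atTop (2 * κ)] with j hj hjκ
  intro G hG hGK hGz
  obtain ⟨sm, hsm⟩ : ∃ sm : ℝ, sm = √((2 : ℝ) ^ j) := ⟨_, rfl⟩
  rw [← hsm] at hj hGK hGz ⊢
  have q1 : 0 ≤ Θ * (D.card : ℝ) := by positivity
  have q2 : 0 ≤ 48 * (s : ℝ) * (Θ * C) := by positivity
  have q3 : 0 ≤ 4 * (s : ℝ) * (Θ * D.card * K) := by positivity
  have q4 : 0 ≤ 1024 * ((s : ℝ) ^ 2 * (cnt * Θ)) := by positivity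
  have q5 : 0 ≤ 32 * (s : ℝ) * (2 ^ κ * (K * C)) := by positivity
  have hsm1 : 1 ≤ sm := by linarith
  have hsm0 : 0 < sm := by linarith
  have hsm2 : sm * sm = (2 : ℝ) ^ j := by rw [hsm]; exact Real.mul_self_sqrt (by positivity)
  have hsmle : sm ≤ (2 : ℝ) ^ j := by
    rw [← hsm2]
    nlinarith
  obtain ⟨M, hM⟩ : ∃ M : ℕ, M = 2 ^ j := ⟨_, rfl⟩
  have hMR : (M : ℝ) = (2 : ℝ) ^ j := by rw [hM]; push_cast; rfl
  obtain ⟨L, hLe⟩ : ∃ L : ℕ, L = 2 ^ (j - κ) := ⟨_, rfl⟩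
  have hL0 : 0 < L := by rw [hLe]; positivity
  have hLM : 2 ^ κ * L = M := by
    rw [hLe, hM, ← pow_add]
    congr 1
    omega
  have hLMR : (2 : ℝ) ^ κ * L = sm * sm := by rw [hsm2, ← hMR]; exact_mod_cast hLM
  have hsmL : sm ≤ L := by
    -- `2 ^ κ ≤ sm`
    have h2 : (2 : ℝ) ^ κ ≤ sm := by
      rw [hsm]
      apply Real.le_sqrt_of_sq_le
      rw [← pow_mul]
      exact pow_le_pow_right₀ (by norm_num) (by omega)
    have h3 : (0 : ℝ) < 2 ^ κ := by positivity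
    have h4 : sm * sm ≤ sm * L := by
      rw [← hLMR]
      exact mul_le_mul_of_nonneg_right h2 (Nat.cast_nonneg _)
    exact le_of_mul_le_mul_left h4 hsm0
  have hLsm : (L : ℝ) / sm = sm / 2 ^ κ := by
    rw [div_eq_div_iff hsm0.ne' (by positivity), mul_comm (L : ℝ), hLMR]
  have hL0R : (0 : ℝ) < L := by exact_mod_cast hL0
  -- the weights
  obtain ⟨w, hw⟩ : ∃ w : ℕ → ℝ, w = fun a => wt S φ (2 ^ j + a) := ⟨_, rfl⟩
  obtain ⟨g, hg⟩ : ∃ g : Circle → ℂ, g = fun η => gam S φ η * ((η⁻¹ : Circle) : ℂ) ^ (2 ^ j) :=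
    ⟨_, rfl⟩
  have hwt : ∀ a, t ≤ w a := fun a => by rw [hw]; exact wt_ge hpd ht hSZ hSne _
  have hw0 : ∀ a, 0 ≤ w a := fun a => ht0.le.trans (hwt a)
  have hwg : ∀ a, ((w a : ℝ) : ℂ) = ∑ z ∈ D, g z * ((z⁻¹ : Circle) : ℂ) ^ a := by
    intro a
    have := wt_sum hpd hSZ (2 ^ j + a)
    rw [hw, hg, hD]
    simp only
    rw [this]
    refine Finset.sum_congr rfl (fun z _ => ?_)
    rw [pow_add]
    ring
  have hgn : ∀ z, ‖g z‖ = ‖gam S φ z‖ := by
    intro z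
    rw [hg]
    simp only
    rw [norm_mul, norm_pow, Circle.norm_coe, one_pow, mul_one]
  have hg1 : ∀ z ∈ D, ‖g z‖ ≤ 1 := fun z hz => by
    rw [hgn]
    exact (norm_gam_le φ S z).trans (hφ1 z (hDZ z hz))
  have hg4 : ∑ z ∈ D, ‖g z‖ ^ 4 ≤ Φ := by
    refine le_trans (Finset.sum_le_sum (fun z _ => ?_)) (hΦ D hDZ)
    rw [hgn]
    exact pow_le_pow_left₀ (norm_nonneg _) (norm_gam_le φ S z) 4
  have hwD : ∀ a, w a ≤ D.card := by
    intro a
    have h2 : |w a| ≤ D.card := by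
      rw [← Real.norm_eq_abs, ← Complex.norm_real, hwg a]
      refine (norm_sum_le _ _).trans ?_
      refine (Finset.sum_le_sum (g := fun _ => (1 : ℝ)) (fun z hz => ?_)).trans ?_
      · rw [norm_mul, norm_pow, Circle.norm_coe, one_pow, mul_one]
        exact hg1 z hz
      · simp
    exact (le_abs_self _).trans h2
  -- the density of `G`
  have hcellR : ∀ k, (#(G.filter fun c => c / L = k) : ℝ) / L ≤ 2 * K / sm := by
    intro k
    have h2 := card_le_of_short (N := 2 ^ j) hG hGK hL0 ⟨2 ^ κ, by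
      rw [mul_comm, hLM, hM]⟩ k hK.le hsm0
    rw [div_le_div_iff₀ hL0R hsm0]
    have h3 : (1 : ℝ) ≤ L / sm := by rw [le_div_iff₀ hsm0]; linarith
    have h4 : (#(G.filter fun c => c / L = k) : ℝ) ≤ K * (2 * (L / sm)) :=
      h2.trans (mul_le_mul_of_nonneg_left (by linarith) hK.le)
    have h5 := mul_le_mul_of_nonneg_right h4 hsm0.le
    refine h5.trans (le_of_eq ?_)
    field_simp
  have hdn : ∀ a, dn G L a ≤ 2 * K / sm := fun a => hcellR (a / L)
  obtain ⟨p', hp'⟩ : ∃ p' : ℕ → ℝ, p' = fun a => Θ * w a / sm := ⟨_, rfl⟩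
  obtain ⟨p, hp⟩ : ∃ p : ℕ → ℝ, p = fun a => p' a - dn G L a := ⟨_, rfl⟩
  have hp'0 : ∀ a, 0 ≤ p' a := fun a => by
    rw [hp']
    exact div_nonneg (mul_nonneg hΘ.le (hw0 a)) hsm0.le
  have hpp' : ∀ a, p a ≤ p' a := fun a => by
    rw [hp]
    have := dn_nonneg G L a
    simp only
    linarith
  have hp0 : ∀ a, 0 ≤ p a := fun a => by
    have h2 : 2 * K / sm ≤ p' a := by
      rw [hp']
      simp only
      refine div_le_div_of_nonneg_right ?_ hsm0.le
      exact hΘt.trans (mul_le_mul_of_nonneg_left (hwt a) hΘ.le)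
    have h3 := hdn a
    rw [hp]
    simp only
    linarith
  have hpD : ∀ a, p' a ≤ Θ * D.card / sm := fun a => by
    rw [hp']
    simp only
    have := hwD a
    gcongr
  have hp1 : ∀ a, p a ≤ 1 := fun a => by
    refine (hpp' a).trans ((hpD a).trans ?_)
    rw [div_le_one hsm0]
    linarith
  -- means of the weights
  have hmean1 : ∀ ζ ∈ F', ∀ y : ℕ,
      ‖∑ a ∈ range y, (p' a : ℂ) * (ζ : ℂ) ^ (2 ^ j + a) - gam S φ ζ * ((Θ * y / sm : ℝ) : ℂ)‖ ≤
        Θ * C / sm := by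
    intro ζ hζ y
    have h2 := hmeanW ζ g hg1 w hwg y
    have h3 : (if ζ ∈ D then g ζ else 0) * (ζ : ℂ) ^ (2 ^ j) = gam S φ ζ := by
      split_ifs with h
      · rw [hg]
        simp only
        rw [mul_assoc, ← mul_pow, ← Circle.coe_mul, inv_mul_cancel, Circle.coe_one, one_pow, mul_one]
      · rw [hD] at h
        rw [gam_zero h, zero_mul]
    have h4 : ∑ a ∈ range y, (p' a : ℂ) * (ζ : ℂ) ^ (2 ^ j + a) -
        gam S φ ζ * ((Θ * y / sm : ℝ) : ℂ) =
        (((Θ / sm : ℝ) : ℂ) * (ζ : ℂ) ^ (2 ^ j)) * (∑ a ∈ range y, (w a : ℂ) * (ζ : ℂ) ^ a -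
          (if ζ ∈ D then g ζ else 0) * y) := by
      rw [← h3, mul_sub, Finset.mul_sum]
      congr 1
      · refine Finset.sum_congr rfl (fun a _ => ?_)
        rw [hp']
        push_cast
        rw [pow_add]
        ring
      · push_cast
        ring
    rw [h4, norm_mul, norm_mul, norm_pow, Circle.norm_coe, one_pow, Complex.norm_real,
      Real.norm_eq_abs, abs_of_pos (by positivity), mul_one, mul_comm Θ C, mul_div_assoc,
      mul_comm C]
    exact mul_le_mul_of_nonneg_left (h2.trans (hCle ζ hζ)) (by positivity)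
  have h1F' : (1 : Circle) ∈ F' := by rw [hF']; exact mem_insert_self _ _
  have hgam1 : gam S φ 1 = 1 := gam_one hSne h1
  have hmeanR : ∀ y : ℕ, |∑ a ∈ range y, p' a - Θ * y / sm| ≤ Θ * C / sm := by
    intro y
    have h2 := hmean1 1 h1F' y
    rw [hgam1] at h2
    have h3 : ∑ a ∈ range y, (p' a : ℂ) * ((1 : Circle) : ℂ) ^ (2 ^ j + a) -
        1 * ((Θ * y / sm : ℝ) : ℂ) = ((∑ a ∈ range y, p' a - Θ * y / sm : ℝ) : ℂ) := by
      push_cast
      simp
    rw [h3, Complex.norm_real, Real.norm_eq_abs] at h2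
    exact h2
  have hMsm : Θ * (M : ℝ) / sm = Θ * sm := by
    rw [hMR, ← hsm2]
    field_simp
  have hCsm : Θ * C / sm ≤ Θ * sm := by
    rw [div_le_iff₀ hsm0, mul_assoc]
    refine mul_le_mul_of_nonneg_left ?_ hΘ.le
    nlinarith
  have hP' : ∑ a ∈ range M, p' a ≤ 2 * Θ * sm := by
    have h2 := (abs_le.1 (hmeanR M)).2
    rw [hMsm] at h2
    linarith
  have hP : ∑ a ∈ range M, p a ≤ 2 * Θ * sm := (sum_le_sum fun a _ => hpp' a).trans hP'
  have hP0 : 0 ≤ ∑ a ∈ range M, p a := Finset.sum_nonneg (fun a _ => hp0 a)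
  -- energy
  have hE : EX p (range M) (fun S => ((quad S).card : ℝ)) ≤ E0 * (2 : ℝ) ^ j := by
    refine (EX_quad hp0 hp1 (range M)).trans ?_
    have h0 : ∑ q ∈ quad (range M), p q.1.1 * p q.1.2 * (p q.2.1 * p q.2.2) ≤
        ∑ q ∈ quad (range M), p' q.1.1 * p' q.1.2 * (p' q.2.1 * p' q.2.2) := by
      refine sum_le_sum fun q _ => ?_
      exact mul_le_mul (mul_le_mul (hpp' _) (hpp' _) (hp0 _) (hp'0 _))
        (mul_le_mul (hpp' _) (hpp' _) (hp0 _) (hp'0 _)) (mul_nonneg (hp0 _) (hp0 _))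
        (mul_nonneg (hp'0 _) (hp'0 _))
    rw [sum_quad_eq p' M] at h0
    have h2 : ∑ n ∈ range (2 * M), (∑ v ∈ (range M ×ˢ range M).filter (fun v => v.1 + v.2 = n),
        p' v.1 * p' v.2) ^ 2 = (Θ ^ 4 * (sm ^ 4)⁻¹) * ∑ n ∈ range (2 * M),
        (∑ v ∈ (range M ×ˢ range M).filter (fun v => v.1 + v.2 = n), w v.1 * w v.2) ^ 2 := by
      rw [Finset.mul_sum]
      refine Finset.sum_congr rfl (fun n _ => ?_)
      have h3 : ∑ v ∈ (range M ×ˢ range M).filter (fun v => v.1 + v.2 = n), p' v.1 * p' v.2 =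
          (Θ ^ 2 * (sm ^ 2)⁻¹) *
            ∑ v ∈ (range M ×ˢ range M).filter (fun v => v.1 + v.2 = n), w v.1 * w v.2 := by
        rw [Finset.mul_sum]
        refine Finset.sum_congr rfl (fun v _ => ?_)
        rw [hp']
        field_simp
      rw [h3]
      field_simp
    have h3 := hen g hg1 w hwg M
    have hsm4 : sm ^ 4 = ((2 : ℝ) ^ j) ^ 2 := by rw [← hsm2]; ring
    have hj1 : (1 : ℝ) ≤ (2 : ℝ) ^ j := by linarith
    have h4 : (sm ^ 4)⁻¹ * (4 * (M : ℝ) ^ 3 * ∑ z ∈ D, ‖g z‖ ^ 4 + C1 * ((M : ℝ) + 1) ^ 2) ≤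
        4 * Φ * (2 : ℝ) ^ j + 4 * C1 := by
      rw [hsm4, inv_mul_le_iff₀ (by positivity)]
      have h5 : 4 * (M : ℝ) ^ 3 * ∑ z ∈ D, ‖g z‖ ^ 4 ≤ 4 * (M : ℝ) ^ 3 * Φ := by gcongr
      have h6 : 4 * (M : ℝ) ^ 3 * Φ = ((2 : ℝ) ^ j) ^ 2 * (4 * Φ * (2 : ℝ) ^ j) := by
        rw [hMR]
        ring
      have h7 : C1 * ((M : ℝ) + 1) ^ 2 ≤ ((2 : ℝ) ^ j) ^ 2 * (4 * C1) := by
        have h71 : (M : ℝ) + 1 ≤ 2 * (2 : ℝ) ^ j := by linarith
        have h8 : ((M : ℝ) + 1) ^ 2 ≤ (2 * (2 : ℝ) ^ j) ^ 2 := by gcongr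
        calc C1 * ((M : ℝ) + 1) ^ 2 ≤ C1 * (2 * (2 : ℝ) ^ j) ^ 2 := by gcongr
          _ = _ := by ring
      have h9 : ((2 : ℝ) ^ j) ^ 2 * (4 * Φ * (2 : ℝ) ^ j + 4 * C1) =
          ((2 : ℝ) ^ j) ^ 2 * (4 * Φ * (2 : ℝ) ^ j) + ((2 : ℝ) ^ j) ^ 2 * (4 * C1) := by ring
      rw [h9]
      linarith
    have h5 : (sm ^ 4)⁻¹ * ∑ n ∈ range (2 * M),
        (∑ v ∈ (range M ×ˢ range M).filter (fun v => v.1 + v.2 = n), w v.1 * w v.2) ^ 2 ≤
        4 * Φ * (2 : ℝ) ^ j + 4 * C1 :=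
      (mul_le_mul_of_nonneg_left h3 (by positivity)).trans h4
    rw [h2] at h0
    have h6 : (∑ a ∈ range M, p a) ^ 2 ≤ 4 * Θ ^ 2 * (2 : ℝ) ^ j := by
      calc (∑ a ∈ range M, p a) ^ 2 ≤ (2 * Θ * sm) ^ 2 := by gcongr
        _ = 4 * Θ ^ 2 * (2 : ℝ) ^ j := by rw [← hsm2]; ring
    have h7 : 4 * C1 ≤ (2 : ℝ) ^ j := by
      have hh : 0 ≤ Θ * (D.card : ℝ) + C := by positivity
      linarith
    have h10 : ∑ a ∈ range M, p a ≤ 2 * Θ * (2 : ℝ) ^ j := hP.trans (by gcongr)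
    have h11 : (Θ ^ 4 * (sm ^ 4)⁻¹) * ∑ n ∈ range (2 * M),
        (∑ v ∈ (range M ×ˢ range M).filter (fun v => v.1 + v.2 = n), w v.1 * w v.2) ^ 2 ≤
        Θ ^ 4 * ((4 * Φ + 1) * (2 : ℝ) ^ j) := by
      rw [mul_assoc]
      refine mul_le_mul_of_nonneg_left (h5.trans ?_) (by positivity)
      have : (4 * Φ + 1) * (2 : ℝ) ^ j = 4 * Φ * (2 : ℝ) ^ j + (2 : ℝ) ^ j := by ring
      rw [this]
      linarith
    rw [hE0]
    linarith
  -- selection
  obtain ⟨gg, hgg⟩ : ∃ gg : Option (Circle × ℕ) → ℕ → ℂ, gg = fun i a => match i with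
    | none => if a ∈ G then 1 else 0
    | some q => if a < q.2 * L then (q.1 : ℂ) ^ (2 ^ j + a) else 0 := ⟨_, rfl⟩
  have hgn' : ∀ i a, ‖gg i a‖ ≤ 1 := by
    intro i a
    rw [hgg]
    rcases i with _ | q
    · simp only
      split_ifs
      · rw [norm_one]
      · rw [norm_zero]; exact zero_le_one
    · simp only
      split_ifs
      · rw [norm_pow, Circle.norm_coe, one_pow]
      · rw [norm_zero]; exact zero_le_one
  obtain ⟨I, hI⟩ : ∃ I : Finset (Option (Circle × ℕ)), I =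
    insertNone (F' ×ˢ range (2 ^ κ + 1)) := ⟨_, rfl⟩
  have hcard : (I.card : ℝ) = cnt := by
    rw [hI, card_insertNone, card_product, card_range, hcnt]
    push_cast
    ring
  have hQ0 : 0 < 4 * E0 * (2 : ℝ) ^ j := by positivity
  have hδ0 : 0 < sm / (16 * s) := by positivity
  have hlt : E0 * (2 : ℝ) ^ j / (4 * E0 * (2 : ℝ) ^ j) +
      (I.card : ℝ) * (2 * Θ * sm) / (sm / (16 * s)) ^ 2 < 1 := by
    have e1 : E0 * (2 : ℝ) ^ j / (4 * E0 * (2 : ℝ) ^ j) = 1 / 4 := by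
      field_simp
    have e2 : (I.card : ℝ) * (2 * Θ * sm) / (sm / (16 * s)) ^ 2 =
        (512 * (s ^ 2 * (cnt * Θ))) / sm := by
      rw [hcard]
      field_simp
      norm_num
    have e3 : (512 * ((s : ℝ) ^ 2 * (cnt * Θ))) / sm ≤ 1 / 2 := by
      rw [div_le_iff₀ hsm0]
      linarith
    rw [e1, e2]
    linarith
  obtain ⟨B, hBM, hBQ, hBd⟩ := select hp0 hp1 (range M) I gg hgn' hE hP hQ0 hδ0 hlt
  have hBM' : ∀ b ∈ B, b < 2 ^ j := fun b hb => by
    have := mem_range.1 (hBM hb)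
    rwa [hM] at this
  -- the sums at the cuts
  have hcut : ∀ ζ ∈ F', ∀ k ≤ 2 ^ κ, ‖∑ a ∈ B.filter (fun a => a < k * L), (ζ : ℂ) ^ (2 ^ j + a) -
      ∑ a ∈ range (k * L), (p a : ℂ) * (ζ : ℂ) ^ (2 ^ j + a)‖ ≤ sm / (16 * s) := by
    intro ζ hζ k hk
    have h2 := hBd (some (ζ, k)) (by
      rw [hI, mem_insertNone]
      intro a ha
      rw [Option.mem_some_iff] at ha
      rw [← ha, mem_product, mem_range]
      exact ⟨hζ, by omega⟩)
    rw [hgg] at h2
    simp only at h2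
    have h3 : ∑ a ∈ range M, (p a : ℂ) * (if a < k * L then (ζ : ℂ) ^ (2 ^ j + a) else 0) =
        ∑ a ∈ range (k * L), (p a : ℂ) * (ζ : ℂ) ^ (2 ^ j + a) := by
      have h4 : range (k * L) = (range M).filter (fun a => a < k * L) := by
        ext a
        rw [mem_filter, mem_range, mem_range]
        have h5 : k * L ≤ M := by rw [← hLM]; exact Nat.mul_le_mul_right L hk
        omega
      rw [h4, sum_filter]
      refine sum_congr rfl fun a _ => ?_
      split_ifs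
      · rfl
      · rw [mul_zero]
    rw [h3, ← sum_filter] at h2
    exact h2
  have hpsplit : ∀ (ζ : Circle) (m : ℕ), ∑ a ∈ range m, (p a : ℂ) * (ζ : ℂ) ^ (2 ^ j + a) =
      ∑ a ∈ range m, (p' a : ℂ) * (ζ : ℂ) ^ (2 ^ j + a) -
      ∑ a ∈ range m, (dn G L a : ℂ) * (ζ : ℂ) ^ (2 ^ j + a) := by
    intro ζ m
    rw [← sum_sub_distrib]
    refine sum_congr rfl fun a _ => ?_
    rw [hp]
    push_cast
    ring
  have hΘC : Θ * C / sm ≤ sm / (48 * s) := by
    rw [div_le_div_iff₀ hsm0 (by positivity)]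
    have h7 : 48 * (s : ℝ) * (Θ * C) ≤ sm := by linarith
    nlinarith
  -- the numbers at the cuts
  have h2cut : ∀ k ≤ 2 ^ κ, |(#(B.filter fun a => a < k * L) : ℝ) +
      #(G.filter fun a => a < k * L) - Θ / sm * (k * L : ℕ)| ≤ sm / (16 * s) + sm / (48 * s) := by
    intro k hk
    have h2 := hcut 1 h1F' k hk
    rw [hpsplit] at h2
    have h3 : ∑ a ∈ B.filter (fun a => a < k * L), ((1 : Circle) : ℂ) ^ (2 ^ j + a) -
        (∑ a ∈ range (k * L), (p' a : ℂ) * ((1 : Circle) : ℂ) ^ (2 ^ j + a) -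
        ∑ a ∈ range (k * L), (dn G L a : ℂ) * ((1 : Circle) : ℂ) ^ (2 ^ j + a)) =
        (((#(B.filter fun a => a < k * L) : ℝ) - (∑ a ∈ range (k * L), p' a -
          ∑ a ∈ range (k * L), dn G L a) : ℝ) : ℂ) := by
      push_cast
      simp
    rw [h3, Complex.norm_real, Real.norm_eq_abs, sum_dn G hL0 k] at h2
    have h4 := hmeanR (k * L)
    have h5 : Θ / sm * (k * L : ℕ) = Θ * (k * L : ℕ) / sm := by ring
    rw [h5]
    rw [abs_le] at h2 h4 ⊢
    constructor <;> linarith [h2.1, h2.2, h4.1, h4.2]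
  refine ⟨B, hBM', hBQ, ?_, ?_⟩
  · -- the intersection
    have h2 := hBd none (by rw [hI, mem_insertNone]; intro a ha; cases ha)
    rw [hgg] at h2
    simp only at h2
    have h3 : ∑ a ∈ B, (if a ∈ G then (1 : ℂ) else 0) = ((B ∩ G).card : ℂ) := by
      rw [← Finset.sum_filter, Finset.filter_mem_eq_inter]
      simp
    have h4 : ∑ a ∈ range M, (p a : ℂ) * (if a ∈ G then (1 : ℂ) else 0) =
        ((∑ a ∈ range M ∩ G, p a : ℝ) : ℂ) := by
      rw [← Finset.filter_mem_eq_inter, Finset.sum_filter]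
      push_cast
      refine Finset.sum_congr rfl (fun a _ => ?_)
      split_ifs <;> simp
    have hGc : (G.card : ℝ) ≤ 2 * K * sm := by
      have h5 := hGK 0 (2 ^ j) (Nat.zero_le _) le_rfl
      have h6 : G.filter (fun a => 0 ≤ a ∧ a < 2 ^ j) = G := by
        rw [filter_eq_self]
        exact fun a ha => ⟨Nat.zero_le _, hG a ha⟩
      rw [h6] at h5
      refine h5.trans ?_
      push_cast
      rw [sub_zero, ← hsm2, mul_div_assoc, div_self hsm0.ne', mul_one]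
      nlinarith
    have h5 : ∑ a ∈ range M ∩ G, p a ≤ 2 * (Θ * D.card * K) := by
      calc ∑ a ∈ range M ∩ G, p a ≤ ∑ _a ∈ range M ∩ G, Θ * D.card / sm :=
            Finset.sum_le_sum (fun a _ => (hpp' a).trans (hpD a))
        _ = (range M ∩ G).card * (Θ * D.card / sm) := by rw [sum_const, nsmul_eq_mul]
        _ ≤ (2 * K * sm) * (Θ * D.card / sm) := by
            refine mul_le_mul_of_nonneg_right ?_ (by positivity)
            refine le_trans ?_ hGc
            exact_mod_cast card_le_card inter_subset_right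
        _ = 2 * (Θ * D.card * K) := by field_simp
    rw [h3, h4] at h2
    have h6 : (((B ∩ G).card : ℂ) - ((∑ a ∈ range M ∩ G, p a : ℝ) : ℂ)) =
        ((((B ∩ G).card : ℝ) - ∑ a ∈ range M ∩ G, p a : ℝ) : ℂ) := by
      push_cast
      rfl
    rw [h6, Complex.norm_real, Real.norm_eq_abs] at h2
    have h7 := (abs_le.1 h2).2
    have h8 : 2 * (Θ * D.card * K) ≤ sm / s / 2 := by
      rw [div_div, le_div_iff₀ (by positivity)]
      linarith
    have h10 : 0 < sm / s := by positivity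
    have hδs : sm / (16 * s) = sm / s / 16 := by field_simp
    rw [hδs] at h7
    linarith
  · -- all positions
    intro z hz y hy
    rw [← hF'] at hz
    have hgc : ‖gam S φ z - φ z‖ ≤ 1 / (4 * (Θ + 1) * (s : ℝ)) := by
      rw [hF'] at hz
      rcases mem_insert.1 hz with h | h
      · rw [h, hgam1, h1, sub_self, norm_zero]
        positivity
      · exact gam_close hSne (hφ1 z (hF z h)) (hfol z h)
    have hφz : ‖φ z‖ ≤ 1 := hφ1 z (hF'Z z hz)
    have h1cut : ∀ k ≤ 2 ^ κ, ‖∑ a ∈ B.filter (fun a => a < k * L), (z : ℂ) ^ (2 ^ j + a) +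
        ∑ a ∈ G.filter (fun a => a < k * L), (z : ℂ) ^ (2 ^ j + a) -
        φ z * ((Θ / sm * (k * L : ℕ) : ℝ) : ℂ)‖ ≤ 5 / 8 * (sm / s) := by
      intro k hk
      have hkM : k * L ≤ 2 ^ j := by rw [← hM, ← hLM]; exact Nat.mul_le_mul_right L hk
      have hsms : 0 < sm / s := by positivity
      by_cases hz1 : z = 1
      · rw [hz1, h1, one_mul]
        have h3 : ∑ a ∈ B.filter (fun a => a < k * L), ((1 : Circle) : ℂ) ^ (2 ^ j + a) +
            ∑ a ∈ G.filter (fun a => a < k * L), ((1 : Circle) : ℂ) ^ (2 ^ j + a) -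
            ((Θ / sm * (k * L : ℕ) : ℝ) : ℂ) =
            (((#(B.filter fun a => a < k * L) : ℝ) + #(G.filter fun a => a < k * L) -
              Θ / sm * (k * L : ℕ) : ℝ) : ℂ) := by
          push_cast
          simp
        rw [h3, Complex.norm_real, Real.norm_eq_abs]
        refine (h2cut k hk).trans ?_
        have e1 : sm / (16 * s) = sm / s / 16 := by field_simp
        have e2 : sm / (48 * s) = sm / s / 48 := by field_simp
        rw [e1, e2]
        linarith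
      · have g1 := hcut z hz k hk
        rw [hpsplit] at g1
        have g2 := hmean1 z hz (k * L)
        have g3 := sum_dn_char G hL0 (2 ^ κ) (fun k _ => hcellR k) z hz1 (2 ^ j) k hk
        have hzF : z ∈ F := by
          rw [hF'] at hz
          exact (mem_insert.1 hz).resolve_left hz1
        have g4 := hGz z hzF hz1 (k * L) hkM
        have g5 : ‖gam S φ z * ((Θ * (k * L : ℕ) / sm : ℝ) : ℂ) -
            φ z * ((Θ / sm * (k * L : ℕ) : ℝ) : ℂ)‖ ≤ sm / s / 4 := by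
          have e0 : Θ / sm * ((k * L : ℕ) : ℝ) = Θ * (k * L : ℕ) / sm := by ring
          rw [e0, ← sub_mul, norm_mul, Complex.norm_real, Real.norm_eq_abs,
            abs_of_nonneg (by positivity)]
          have e1 : Θ * ((k * L : ℕ) : ℝ) / sm ≤ Θ * sm := by
            rw [div_le_iff₀ hsm0, mul_assoc, hsm2]
            refine mul_le_mul_of_nonneg_left ?_ hΘ.le
            exact_mod_cast hkM
          calc ‖gam S φ z - φ z‖ * (Θ * ((k * L : ℕ) : ℝ) / sm)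
              ≤ 1 / (4 * (Θ + 1) * (s : ℝ)) * (Θ * sm) :=
                mul_le_mul hgc e1 (by positivity) (by positivity)
            _ ≤ 1 / (4 * (Θ + 1) * (s : ℝ)) * ((Θ + 1) * sm) := by gcongr; linarith
            _ = sm / s / 4 := by
                field_simp
        have g6 : (k : ℝ) * (2 * K / sm * cs z) ≤ sm / s / 16 := by
          have e1 : (k : ℝ) ≤ 2 ^ κ := by exact_mod_cast hk
          calc (k : ℝ) * (2 * K / sm * cs z) ≤ 2 ^ κ * (2 * K / sm * C) := by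
                refine mul_le_mul e1 (mul_le_mul_of_nonneg_left (hCcs z hz) (by positivity))
                  (mul_nonneg (by positivity) (cs_nonneg z)) (by positivity)
            _ = (2 * (2 ^ κ * (K * C))) / sm := by ring
            _ ≤ 1 / (16 * s) := by
                rw [div_le_div_iff₀ hsm0 (by positivity)]
                linarith
            _ ≤ sm / s / 16 := by
                rw [div_div, mul_comm (s : ℝ) 16]
                exact div_le_div_of_nonneg_right hsm1 (by positivity)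
        have e1 : sm / (16 * s) = sm / s / 16 := by field_simp
        have e2 : sm / (8 * s) = sm / s / 8 := by field_simp
        have e3 : sm / (48 * s) = sm / s / 48 := by field_simp
        rw [e1] at g1
        rw [e2] at g4
        rw [e3] at hΘC
        have g7 : ∑ a ∈ B.filter (fun a => a < k * L), (z : ℂ) ^ (2 ^ j + a) +
            ∑ a ∈ G.filter (fun a => a < k * L), (z : ℂ) ^ (2 ^ j + a) -
            φ z * ((Θ / sm * (k * L : ℕ) : ℝ) : ℂ) =
            (∑ a ∈ B.filter (fun a => a < k * L), (z : ℂ) ^ (2 ^ j + a) -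
              (∑ a ∈ range (k * L), (p' a : ℂ) * (z : ℂ) ^ (2 ^ j + a) -
              ∑ a ∈ range (k * L), (dn G L a : ℂ) * (z : ℂ) ^ (2 ^ j + a))) +
            (∑ a ∈ range (k * L), (p' a : ℂ) * (z : ℂ) ^ (2 ^ j + a) -
              gam S φ z * ((Θ * (k * L : ℕ) / sm : ℝ) : ℂ)) +
            -(∑ a ∈ range (k * L), (dn G L a : ℂ) * (z : ℂ) ^ (2 ^ j + a)) +
            ∑ a ∈ G.filter (fun a => a < k * L), (z : ℂ) ^ (2 ^ j + a) +
            (gam S φ z * ((Θ * (k * L : ℕ) / sm : ℝ) : ℂ) -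
              φ z * ((Θ / sm * (k * L : ℕ) : ℝ) : ℂ)) := by ring
        rw [g7]
        refine (norm_add_le _ _).trans ?_
        have n1 := norm_add_le ((∑ a ∈ B.filter (fun a => a < k * L), (z : ℂ) ^ (2 ^ j + a) -
              (∑ a ∈ range (k * L), (p' a : ℂ) * (z : ℂ) ^ (2 ^ j + a) -
              ∑ a ∈ range (k * L), (dn G L a : ℂ) * (z : ℂ) ^ (2 ^ j + a))) +
            (∑ a ∈ range (k * L), (p' a : ℂ) * (z : ℂ) ^ (2 ^ j + a) -
              gam S φ z * ((Θ * (k * L : ℕ) / sm : ℝ) : ℂ)) +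
            -(∑ a ∈ range (k * L), (dn G L a : ℂ) * (z : ℂ) ^ (2 ^ j + a)))
            (∑ a ∈ G.filter (fun a => a < k * L), (z : ℂ) ^ (2 ^ j + a))
        have n2 := norm_add_le ((∑ a ∈ B.filter (fun a => a < k * L), (z : ℂ) ^ (2 ^ j + a) -
              (∑ a ∈ range (k * L), (p' a : ℂ) * (z : ℂ) ^ (2 ^ j + a) -
              ∑ a ∈ range (k * L), (dn G L a : ℂ) * (z : ℂ) ^ (2 ^ j + a))) +
            (∑ a ∈ range (k * L), (p' a : ℂ) * (z : ℂ) ^ (2 ^ j + a) -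
              gam S φ z * ((Θ * (k * L : ℕ) / sm : ℝ) : ℂ)))
            (-(∑ a ∈ range (k * L), (dn G L a : ℂ) * (z : ℂ) ^ (2 ^ j + a)))
        have n3 := norm_add_le (∑ a ∈ B.filter (fun a => a < k * L), (z : ℂ) ^ (2 ^ j + a) -
              (∑ a ∈ range (k * L), (p' a : ℂ) * (z : ℂ) ^ (2 ^ j + a) -
              ∑ a ∈ range (k * L), (dn G L a : ℂ) * (z : ℂ) ^ (2 ^ j + a)))
            (∑ a ∈ range (k * L), (p' a : ℂ) * (z : ℂ) ^ (2 ^ j + a) -
              gam S φ z * ((Θ * (k * L : ℕ) / sm : ℝ) : ℂ))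
        rw [norm_neg] at n2
        linarith
    have hfin := cuts B G (2 ^ j) L (2 ^ κ) hL0 (by rw [hLM, hM]) (fun a => (z : ℂ) ^ (2 ^ j + a))
      (fun a => by rw [norm_pow, Circle.norm_coe, one_pow]) (φ z) (Θ / sm) (5 / 8 * (sm / s))
      (sm / (16 * s) + sm / (48 * s)) (by positivity) h1cut h2cut (by positivity) y hy
    have e0 : Θ * (y : ℝ) / sm = Θ / sm * y := by ring
    rw [e0]
    refine hfin.trans ?_
    have hsms : 0 < sm / s := by positivity
    have e1 : sm / (16 * s) = sm / s / 16 := by field_simp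
    have e3 : sm / (48 * s) = sm / s / 48 := by field_simp
    rw [e1, e3]
    have e4 : Θ / sm * L ≤ sm / s / 32 := by
      have e5 : Θ / sm * L = Θ * sm / 2 ^ κ := by
        rw [div_mul_eq_mul_div, mul_div_assoc, hLsm, mul_div_assoc]
      rw [e5, div_div, div_le_div_iff₀ (by positivity) (by positivity)]
      have h7 := mul_le_mul_of_nonneg_left hκ hsm0.le
      linarith
    have e6 : (1 + ‖φ z‖) * (Θ / sm * L) ≤ 2 * (sm / s / 32) :=
      mul_le_mul (by linarith) e4 (by positivity) (by norm_num)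
    linarith

end Pool.Agent.Helper80.JB
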