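import Pool.Agent.Helper80.JB.Phi

/-!
# A basis with prescribed limits along a subsequence
-/

set_option autoImplicit false

open Finset Filter
open scoped ComplexConjugate ComplexOrder

namespace Pool.Agent.Helper80.JB

open Pool.Agent.Helper25.RC (below mem_below rep)
open Pool.Agent.Helper5.RC (sol blk mem_blk AA)
open Pool.Agent.Helper80.RC (chain_two)
open Pool.Agent.Helper80.SP (mean)
open Pool.Agent.Helper38.SP (PosDef quad sol_eq_quad)
open Pool.Agent.Helper38.JB (IsBase)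

/-- a sum over a union -/
theorem union_est (T U V : Finset ℕ) (w : ℕ) (hT : T ⊆ U ∪ V ∪ range w) (hU : U ∪ V ⊆ T)
    (f : ℕ → ℂ) (hf : ∀ n, ‖f n‖ ≤ 1) :
    ‖∑ n ∈ T, f n - (∑ n ∈ U, f n + ∑ n ∈ V, f n)‖ ≤ #(U ∩ V) + w := by
  have h1 : ∑ n ∈ T, f n = ∑ n ∈ T \ (U ∪ V), f n + ∑ n ∈ U ∪ V, f n := (sum_sdiff hU).symm
  have h2 : ∑ n ∈ U ∪ V, f n + ∑ n ∈ U ∩ V, f n = ∑ n ∈ U, f n + ∑ n ∈ V, f n :=
    sum_union_inter
  have h3 : ∑ n ∈ T, f n - (∑ n ∈ U, f n + ∑ n ∈ V, f n) =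
      ∑ n ∈ T \ (U ∪ V), f n - ∑ n ∈ U ∩ V, f n := by
    rw [h1, ← h2]
    ring
  have hb : ∀ S : Finset ℕ, ‖∑ n ∈ S, f n‖ ≤ #S := by
    intro S
    refine (norm_sum_le _ _).trans ((sum_le_sum fun n _ => hf n).trans (le_of_eq ?_))
    rw [sum_const, nsmul_eq_mul, mul_one]
  have h4 : #(T \ (U ∪ V)) ≤ w := by
    have h5 : T \ (U ∪ V) ⊆ range w := by
      intro n hn
      rw [Finset.mem_sdiff] at hn
      have := hT hn.1
      rw [mem_union] at this
      exact this.resolve_left hn.2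
    have := card_le_card h5
    rwa [card_range] at this
  rw [h3]
  refine (norm_sub_le _ _).trans ?_
  have h5 : (#(T \ (U ∪ V)) : ℝ) ≤ w := by exact_mod_cast h4
  have h6 := hb (T \ (U ∪ V))
  have h7 := hb (U ∩ V)
  linarith

theorem sum_eq_mean (A : Set ℕ) (x : ℕ) (z : Circle) :
    ∑ a ∈ below A x, (z : ℂ) ^ a = mean A x z * #(below A x) := by
  unfold mean
  by_cases h : (#(below A x) : ℂ) = 0
  · have h2 : below A x = ∅ := by
      rw [← card_eq_zero]
      exact_mod_cast h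
    rw [h2]
    simp
  · rw [div_mul_cancel₀ _ h]

open Classical in
/-- **a basis with prescribed limits along a subsequence** -/
theorem asm (Z : Subgroup Circle) (hZ : (Z : Set Circle).Countable) {BR : ℕ → Finset ℕ} {K : ℝ}
    (hB : IsBase Z BR K) (φ : Circle → ℂ) (h1 : φ 1 = 1)
    (hs : Summable fun z : Z => ‖φ z‖ ^ 4) (t : ℝ) (ht0 : 0 < t)
    (ht : PosDef (Z : Set Circle) fun z => φ z - (if z = 1 then (t : ℂ) else 0)) :
    ∃ (A : Set ℕ) (C : ℝ) (x : ℕ → ℕ), StrictMono x ∧ (∀ᶠ n : ℕ in atTop, 1 ≤ rep A n) ∧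
      (∀ y : ℕ, ∑ n ∈ range y, (rep A n : ℝ) ^ 2 ≤ C * y) ∧
      ∀ z ∈ Z, Tendsto (fun i => mean A (x i) z) atTop (nhds (φ z)) := by
  obtain ⟨g, ρ, κ, K', hgm, hgodd, hκ0, hκ, hρ, hρ1, hρpd, hρs, hρK⟩ := law Z hZ hB
  obtain ⟨β, φ'', hβ0, hβ1, hcomb, hφ''1, hφ''pd, hφ''s⟩ :=
    compl_law Z h1 hs ht0 ht hρ1 hρs hρK
  obtain ⟨hodd, hE, hbas, hlaw⟩ := hB
  obtain ⟨J, hJ⟩ : ∃ J, J = AA (fun j => 2 ^ j) BR := ⟨_, rfl⟩
  rw [← hJ] at hκ hρ hbas hlaw
  -- constants
  have hs2 : 0 < √(2 : ℝ) := Real.sqrt_pos.2 (by norm_num)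
  obtain ⟨Θ, hΘ⟩ : ∃ Θ, Θ = 2 * √2 * (κ * (1 - β) / β) := ⟨_, rfl⟩
  have hΘ0 : 0 < Θ := by
    rw [hΘ]
    have : 0 < 1 - β := by linarith
    positivity
  have hΦ : ∀ S : Finset Circle, (∀ s ∈ S, s ∈ Z) →
      ∑ s ∈ S, ‖φ'' s‖ ^ 4 ≤ ∑' z : Z, ‖φ'' z‖ ^ 4 := by
    intro T hT
    have h2 := hφ''s.sum_le_tsum (T.subtype fun z => z ∈ Z) fun _ _ => by positivity
    refine le_trans (le_of_eq ?_) h2
    rw [sum_subtype_of_mem (fun z => ‖φ'' z‖ ^ 4) hT]
  obtain ⟨Φ, hΦe⟩ : ∃ Φ, Φ = ∑' z : Z, ‖φ'' z‖ ^ 4 := ⟨_, rfl⟩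
  rw [← hΦe] at hΦ
  -- the counting function of the basis
  obtain ⟨C₁, hC₁⟩ : ∃ C₁ : ℝ, ∀ x : ℕ, (#(below J x) : ℝ) ≤ C₁ * √x := by
    have h1 := hlaw {1} (fun s hs => by rw [mem_singleton.1 hs]; exact Z.one_mem) (fun _ => 1) 1
      one_pos
    obtain ⟨X, hX⟩ := eventually_atTop.1 h1
    refine ⟨max (K + 1) (√X), fun x => ?_⟩
    rcases le_or_gt X x with hx | hx
    · have h2 := hX x hx
      have h3 : (#(below J x) : ℝ) ≤ (K + 1) * √x := by simpa using h2
      exact h3.trans (mul_le_mul_of_nonneg_right (le_max_left _ _) (Real.sqrt_nonneg _))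
    · have h2 : #(below J x) ≤ x := by
        unfold Pool.Agent.Helper25.RC.below
        exact (card_filter_le _ _).trans (le_of_eq (card_range x))
      have h3 : (#(below J x) : ℝ) ≤ x := by exact_mod_cast h2
      have h4 : (x : ℝ) = √x * √x := (Real.mul_self_sqrt (Nat.cast_nonneg x)).symm
      have h5 : √(x : ℝ) ≤ √X := Real.sqrt_le_sqrt (by exact_mod_cast hx.le)
      have h6 : √(x : ℝ) ≤ max (K + 1) (√X) := h5.trans (le_max_right _ _)
      have h7 := mul_le_mul_of_nonneg_right h6 (Real.sqrt_nonneg (x : ℝ))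
      linarith
  obtain ⟨D0, hD0⟩ : ∃ D0 : ℕ → Finset ℕ, D0 = fun j => {b ∈ range (2 ^ j) | 2 ^ j + b ∈ J} :=
    ⟨_, rfl⟩
  have hD0c : ∀ j, ((D0 j).card : ℝ) ≤ (C₁ * √2) * √((2 : ℝ) ^ j) := by
    intro j
    have h2 : #(D0 j) ≤ #(below J (2 ^ (j + 1))) := by
      refine card_le_card_of_injOn (fun b => 2 ^ j + b) ?_ ?_
      · intro b hb
        rw [mem_coe, hD0, mem_filter, mem_range] at hb
        rw [mem_coe, mem_below]
        refine ⟨?_, hb.2⟩
        simp only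
        rw [pow_succ]
        omega
      · intro a _ b _ hab
        exact Nat.add_left_cancel hab
    have h3 := hC₁ (2 ^ (j + 1))
    push_cast at h3
    have h5 : √((2 : ℝ) ^ (j + 1)) = √((2 : ℝ) ^ j) * √2 := by
      rw [pow_succ, Real.sqrt_mul (by positivity)]
    rw [h5] at h3
    have h4 : (#(D0 j) : ℝ) ≤ #(below J (2 ^ (j + 1))) := by exact_mod_cast h2
    linarith
  -- the frequencies
  obtain ⟨zs, hzs⟩ := hZ.exists_eq_range ⟨1, Z.one_mem⟩
  have hzsZ : ∀ i, zs i ∈ Z := by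
    intro i
    have : zs i ∈ (Z : Set Circle) := by rw [hzs]; exact ⟨i, rfl⟩
    exact this
  -- the special scales
  obtain ⟨Q, hQ⟩ : ∃ Q : ℕ → ℕ → Prop, Q = fun k m => ∃ B : Finset ℕ,
      (∀ b ∈ B, 2 * b < 2 ^ (g m)) ∧
      ((quad B).card : ℝ) ≤ 4 * (Θ ^ 4 * (Φ + 1) + 4 * Θ ^ 2 + 4 * Θ) * 2 ^ (g m) ∧
      (∀ ζ ∈ insert 1 ((range (k + 1)).image zs), ‖∑ b ∈ B, (ζ : ℂ) ^ (2 ^ (g m) + b) -
        φ'' ζ * ((Θ * √((2 : ℝ) ^ (g m)) / 2 : ℝ) : ℂ)‖ ≤
          (1 + Θ) * (√((2 : ℝ) ^ (g m)) / ((k + 1 : ℕ) : ℝ))) ∧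
      ((B ∩ D0 (g m)).card : ℝ) ≤ √((2 : ℝ) ^ (g m)) / ((k + 1 : ℕ) : ℝ) := ⟨_, rfl⟩
  have hQev : ∀ k, ∀ᶠ m in atTop, Q k m := by
    intro k
    rw [hQ]
    exact hgm.tendsto_atTop.eventually (oneX_all Z φ'' hφ''pd hφ''1 hΦ hΘ0 D0 hD0c
      ((range (k + 1)).image zs) (fun z hz => by
        rw [mem_image] at hz
        obtain ⟨i, _, rfl⟩ := hz
        exact hzsZ i) (k + 1) (Nat.succ_pos k))
  obtain ⟨h, hh, hQh, hG⟩ := exists_sparse Q hQev fun k m => 2 * (g m + k + 3)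
  rw [hQ] at hQh
  choose BX hX1 hX2 hX3 hX4 using hQh
  obtain ⟨jk, hjk⟩ : ∃ jk : ℕ → ℕ, jk = fun k => g (h k) := ⟨_, rfl⟩
  have hjkm : StrictMono jk := by rw [hjk]; exact hgm.comp hh
  have hX1' : ∀ k, ∀ b ∈ BX k, 2 * b < 2 ^ jk k := by rw [hjk]; exact hX1
  have hX2' : ∀ k, ((quad (BX k)).card : ℝ) ≤
      4 * (Θ ^ 4 * (Φ + 1) + 4 * Θ ^ 2 + 4 * Θ) * 2 ^ jk k := by rw [hjk]; exact hX2
  have hX3' : ∀ k, ∀ ζ ∈ insert 1 ((range (k + 1)).image zs),
      ‖∑ b ∈ BX k, (ζ : ℂ) ^ (2 ^ jk k + b) -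
        φ'' ζ * ((Θ * √((2 : ℝ) ^ jk k) / 2 : ℝ) : ℂ)‖ ≤
          (1 + Θ) * (√((2 : ℝ) ^ jk k) / ((k + 1 : ℕ) : ℝ)) := by rw [hjk]; exact hX3
  have hX4' : ∀ k, ((BX k ∩ D0 (jk k)).card : ℝ) ≤ √((2 : ℝ) ^ jk k) / ((k + 1 : ℕ) : ℝ) := by
    rw [hjk]; exact hX4
  -- the blocks
  obtain ⟨B, hBdef⟩ : ∃ B : ℕ → Finset ℕ, B = fun j =>
    if hj : ∃ k, jk k = j then BX hj.choose else BR j := ⟨_, rfl⟩
  have hBjk : ∀ k, B (jk k) = BX k := by
    intro k
    have hj : ∃ i, jk i = jk k := ⟨k, rfl⟩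
    have h2 : hj.choose = k := hjkm.injective hj.choose_spec
    rw [hBdef]
    simp only
    rw [dif_pos hj, h2]
  have hBne : ∀ j, (¬ ∃ k, jk k = j) → B j = BR j := by
    intro j hj
    rw [hBdef]
    simp only
    rw [dif_neg hj]
  have hBRjk : ∀ k, BR (jk k) = ∅ := by
    intro k
    refine hodd _ ?_
    rw [hjk]
    exact hgodd _
  have hJA : J ⊆ AA (fun j => 2 ^ j) B := by
    intro n hn
    rw [hJ] at hn
    obtain ⟨j, hj⟩ := hn
    by_cases hjx : ∃ k, jk k = j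
    · obtain ⟨k, rfl⟩ := hjx
      rw [mem_blk, hBRjk] at hj
      exact absurd hj.2 (notMem_empty _)
    · exact ⟨j, by rw [hBne j hjx]; exact hj⟩
  refine ⟨AA (fun j => 2 ^ j) B, 2401 * max K (4 * (Θ ^ 4 * (Φ + 1) + 4 * Θ ^ 2 + 4 * Θ)),
    fun k => 2 ^ (jk k + 1), ?_, ?_, ?_, ?_⟩
  · intro a b hab
    exact Nat.pow_lt_pow_right (by norm_num) (Nat.add_lt_add_right (hjkm hab) 1)
  · filter_upwards [hbas] with n hn
    refine hn.trans ?_
    unfold Pool.Agent.Helper25.RC.rep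
    refine card_le_card fun p hp => ?_
    rw [mem_filter] at hp ⊢
    exact ⟨hp.1, hJA hp.2.1, hJA hp.2.2⟩
  · intro y
    have hEE : ∀ j, ((sol ((fun j => 2 ^ j) j) (B j)).card : ℝ) ≤
        max K (4 * (Θ ^ 4 * (Φ + 1) + 4 * Θ ^ 2 + 4 * Θ)) * (((fun j => 2 ^ j) j : ℕ) : ℝ) := by
      intro j
      push_cast
      by_cases hjx : ∃ k, jk k = j
      · obtain ⟨k, rfl⟩ := hjx
        rw [hBjk, sol_eq_quad (hX1' k)]
        exact (hX2' k).trans (mul_le_mul_of_nonneg_right (le_max_right _ _) (by positivity))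
      · rw [hBne j hjx]
        exact (hE j).trans (mul_le_mul_of_nonneg_right (le_max_left _ _) (by positivity))
    have h2 := Pool.Agent.Helper5.RC.mean_square chain_two hEE y
    refine le_trans (le_of_eq ?_) h2
    exact sum_congr rfl fun n _ => by rw [Pool.Agent.Helper80.RC.rep_eq]
  · -- the main estimate
    obtain ⟨A, hA⟩ : ∃ A, A = AA (fun j => 2 ^ j) B := ⟨_, rfl⟩
    rw [← hA] at hJA ⊢
    obtain ⟨w, hw⟩ : ∃ w : ℕ → ℕ, w = fun k => if k = 0 then 0 else 2 ^ (jk (k - 1) + 1) := ⟨_, rfl⟩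
    have hwle : ∀ k, (w k : ℝ) ≤ √((2 : ℝ) ^ jk k) / ((k + 1 : ℕ) : ℝ) := by
      intro k
      rw [hw]
      cases k with
      | zero => simp
      | succ k =>
        simp only [Nat.succ_ne_zero, if_false, Nat.add_sub_cancel]
        rw [le_div_iff₀ (by positivity)]
        have h2 : 2 * (jk k + k + 3) ≤ jk (k + 1) := by
          have h3 := hG k
          have h4 := hgm.id_le (h (k + 1))
          simp only [id] at h4
          have h5 : jk k = g (h k) := by rw [hjk]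
          have h6 : jk (k + 1) = g (h (k + 1)) := by rw [hjk]
          rw [← h5] at h3
          omega
        apply Real.le_sqrt_of_sq_le
        have h3 : (2 ^ (jk k + 1) * (k + 1 + 1)) ^ 2 ≤ 2 ^ jk (k + 1) := by
          have h4 : k + 1 + 1 ≤ 2 ^ (k + 2) := (Nat.lt_two_pow_self (n := k + 2)).le
          calc (2 ^ (jk k + 1) * (k + 1 + 1)) ^ 2 ≤ (2 ^ (jk k + 1) * 2 ^ (k + 2)) ^ 2 :=
                Nat.pow_le_pow_left (Nat.mul_le_mul_left _ h4) 2
            _ = 2 ^ (2 * (jk k + k + 3)) := by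
                rw [← pow_add, ← pow_mul]
                congr 1
                ring
            _ ≤ 2 ^ jk (k + 1) := Nat.pow_le_pow_right (by norm_num) h2
        exact_mod_cast h3
    have hest : ∀ k, ∀ z ∈ insert 1 ((range (k + 1)).image zs),
        ‖∑ a ∈ below A (2 ^ (jk k + 1)), (z : ℂ) ^ a -
          (∑ a ∈ below J (2 ^ (jk k + 1)), (z : ℂ) ^ a +
            φ'' z * ((Θ * √((2 : ℝ) ^ jk k) / 2 : ℝ) : ℂ))‖ ≤
          (3 + Θ) * (√((2 : ℝ) ^ jk k) / ((k + 1 : ℕ) : ℝ)) := by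
      intro k z hz
      obtain ⟨V, hV⟩ : ∃ V : Finset ℕ, V = (BX k).image fun b => 2 ^ jk k + b := ⟨_, rfl⟩
      have hVsum : ∑ a ∈ V, (z : ℂ) ^ a = ∑ b ∈ BX k, (z : ℂ) ^ (2 ^ jk k + b) := by
        rw [hV, sum_image fun a _ b _ hab => Nat.add_left_cancel hab]
      have hVT : V ⊆ below A (2 ^ (jk k + 1)) := by
        intro n hn
        rw [hV, mem_image] at hn
        obtain ⟨b, hb, rfl⟩ := hn
        rw [mem_below]
        have h2 := hX1' k b hb
        refine ⟨by rw [pow_succ]; omega, ?_⟩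
        rw [hA]
        refine ⟨jk k, mem_blk.2 ⟨Nat.le_add_right _ _, ?_⟩⟩
        rw [hBjk]
        simpa using hb
      have hUT : below J (2 ^ (jk k + 1)) ⊆ below A (2 ^ (jk k + 1)) := by
        intro n hn
        rw [mem_below] at hn ⊢
        exact ⟨hn.1, hJA hn.2⟩
      have hT : below A (2 ^ (jk k + 1)) ⊆ below J (2 ^ (jk k + 1)) ∪ V ∪ range (w k) := by
        intro n hn
        rw [mem_below, hA] at hn
        obtain ⟨hn1, j, hj⟩ := hn
        rw [mem_union, mem_union]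
        by_cases hjx : ∃ i, jk i = j
        · obtain ⟨i, rfl⟩ := hjx
          rw [mem_blk, hBjk] at hj
          have h2 := hX1' i _ hj.2
          simp only at hj h2
          have h3 : jk i < jk k + 1 := by
            by_contra hcon
            have := Nat.pow_le_pow_right (n := 2) (by norm_num) (not_lt.1 hcon)
            omega
          have h4 : i ≤ k := by
            by_contra hcon
            have := hjkm (not_le.1 hcon)
            omega
          rcases Nat.lt_or_eq_of_le h4 with h5 | h5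
          · right
            rw [mem_range, hw]
            simp only
            rw [if_neg (by omega)]
            have h6 : jk i ≤ jk (k - 1) := hjkm.monotone (by omega)
            have h7 : 2 ^ (jk i + 1) ≤ 2 ^ (jk (k - 1) + 1) :=
              Nat.pow_le_pow_right (by norm_num) (by omega)
            rw [pow_succ] at h7
            omega
          · left; right
            subst h5
            rw [hV, mem_image]
            exact ⟨_, hj.2, by omega⟩
        · left; left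
          rw [mem_below]
          refine ⟨hn1, ?_⟩
          rw [hJ]
          exact ⟨j, by rw [← hBne j hjx]; exact hj⟩
      have h2 := union_est (below A (2 ^ (jk k + 1))) (below J (2 ^ (jk k + 1))) V (w k) hT
        (union_subset hUT hVT) (fun a => (z : ℂ) ^ a) fun n => by
          rw [norm_pow, Circle.norm_coe, one_pow]
      have h3 : #(below J (2 ^ (jk k + 1)) ∩ V) ≤ #(BX k ∩ D0 (jk k)) := by
        have h4 : below J (2 ^ (jk k + 1)) ∩ V ⊆ (BX k ∩ D0 (jk k)).image fun b => 2 ^ jk k + b := by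
          intro n hn
          rw [mem_inter, mem_below, hV, mem_image] at hn
          obtain ⟨⟨h5, h6⟩, b, hb, rfl⟩ := hn
          rw [mem_image]
          refine ⟨b, ?_, rfl⟩
          rw [mem_inter, hD0, mem_filter, mem_range]
          have := hX1' k b hb
          exact ⟨hb, by omega, h6⟩
        exact (card_le_card h4).trans card_image_le
      have h4 : (#(below J (2 ^ (jk k + 1)) ∩ V) : ℝ) ≤
          √((2 : ℝ) ^ jk k) / ((k + 1 : ℕ) : ℝ) :=
        (by exact_mod_cast h3 : (#(below J (2 ^ (jk k + 1)) ∩ V) : ℝ) ≤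
          #(BX k ∩ D0 (jk k))).trans (hX4' k)
      have h5 := hX3' k z hz
      have h6 := hwle k
      rw [hVsum] at h2
      have h7 : ∑ a ∈ below A (2 ^ (jk k + 1)), (z : ℂ) ^ a -
          (∑ a ∈ below J (2 ^ (jk k + 1)), (z : ℂ) ^ a +
            φ'' z * ((Θ * √((2 : ℝ) ^ jk k) / 2 : ℝ) : ℂ)) =
          (∑ a ∈ below A (2 ^ (jk k + 1)), (z : ℂ) ^ a -
          (∑ a ∈ below J (2 ^ (jk k + 1)), (z : ℂ) ^ a +
            ∑ b ∈ BX k, (z : ℂ) ^ (2 ^ jk k + b))) +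
          (∑ b ∈ BX k, (z : ℂ) ^ (2 ^ jk k + b) -
            φ'' z * ((Θ * √((2 : ℝ) ^ jk k) / 2 : ℝ) : ℂ)) := by ring
      rw [h7]
      refine (norm_add_le _ _).trans ?_
      have h8 : (3 + Θ) * (√((2 : ℝ) ^ jk k) / ((k + 1 : ℕ) : ℝ)) =
          √((2 : ℝ) ^ jk k) / ((k + 1 : ℕ) : ℝ) + √((2 : ℝ) ^ jk k) / ((k + 1 : ℕ) : ℝ) +
          (1 + Θ) * (√((2 : ℝ) ^ jk k) / ((k + 1 : ℕ) : ℝ)) := by ring
      rw [h8]
      linarith
    -- the normalised sums
    obtain ⟨L, hL⟩ : ∃ L : Circle → ℂ, L = fun z =>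
      ρ z * (κ : ℂ) + φ'' z * ((Θ / (2 * √2) : ℝ) : ℂ) := ⟨_, rfl⟩
    have hnorm : ∀ i : ℕ, Tendsto (fun k => (∑ a ∈ below A (2 ^ (jk k + 1)), (zs i : ℂ) ^ a) /
        ((√((2 : ℝ) ^ (jk k + 1)) : ℝ) : ℂ)) atTop (nhds (L (zs i))) := by
      intro i
      obtain ⟨u, hu⟩ : ∃ u : ℕ → ℂ, u = fun k =>
        (∑ a ∈ below J (2 ^ (jk k + 1)), (zs i : ℂ) ^ a +
            φ'' (zs i) * ((Θ * √((2 : ℝ) ^ jk k) / 2 : ℝ) : ℂ)) /
        ((√((2 : ℝ) ^ (jk k + 1)) : ℝ) : ℂ) := ⟨_, rfl⟩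
      have hul : Tendsto u atTop (nhds (L (zs i))) := by
        have h2 : u = fun k => mean J (2 ^ (jk k + 1)) (zs i) *
            (((#(below J (2 ^ (jk k + 1))) : ℝ) / √((2 : ℝ) ^ (jk k + 1)) : ℝ) : ℂ) +
            φ'' (zs i) * ((Θ / (2 * √2) : ℝ) : ℂ) := by
          rw [hu]
          funext k
          have h3 : 0 < √((2 : ℝ) ^ jk k) := Real.sqrt_pos.2 (by positivity)
          have h4 : √((2 : ℝ) ^ (jk k + 1)) = √((2 : ℝ) ^ jk k) * √2 := by
            rw [pow_succ, Real.sqrt_mul (by positivity)]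
          rw [sum_eq_mean, add_div, mul_div_assoc, mul_div_assoc, ← Complex.ofReal_div]
          congr 2
          · push_cast
            rfl
          · congr 1
            rw [h4]
            field_simp
        rw [h2, hL]
        refine Tendsto.add (Tendsto.mul ?_ ?_) tendsto_const_nhds
        · have h3 := (hρ (zs i) (hzsZ i)).comp hh.tendsto_atTop
          rw [hjk]
          exact h3
        · have h3 := hκ.comp hh.tendsto_atTop
          rw [hjk]
          exact (Complex.continuous_ofReal.tendsto κ).comp h3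
      have hdiff : Tendsto (fun k => (∑ a ∈ below A (2 ^ (jk k + 1)), (zs i : ℂ) ^ a) /
          ((√((2 : ℝ) ^ (jk k + 1)) : ℝ) : ℂ) - u k) atTop (nhds 0) := by
        have h2 : Tendsto (fun k : ℕ => (3 + Θ) * (1 / ((k : ℝ) + 1))) atTop (nhds 0) := by
          have := tendsto_one_div_add_atTop_nhds_zero_nat (𝕜 := ℝ)
          have h3 := this.const_mul (3 + Θ)
          rwa [mul_zero] at h3
        refine squeeze_zero_norm' ?_ h2
        filter_upwards [eventually_ge_atTop i] with k hk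
        have h3 := hest k (zs i) (mem_insert_of_mem (mem_image_of_mem _ (mem_range.2 (by omega))))
        have h5 : 0 < √((2 : ℝ) ^ (jk k + 1)) := Real.sqrt_pos.2 (by positivity)
        rw [hu]
        simp only
        rw [← sub_div, norm_div, Complex.norm_real, Real.norm_eq_abs, abs_of_pos h5,
          div_le_iff₀ h5]
        refine h3.trans ?_
        push_cast
        have h6 : √((2 : ℝ) ^ jk k) ≤ √((2 : ℝ) ^ (jk k + 1)) :=
          Real.sqrt_le_sqrt (pow_le_pow_right₀ (by norm_num) (Nat.le_succ _))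
        have h7 : √((2 : ℝ) ^ jk k) / ((k : ℝ) + 1) ≤
            1 / ((k : ℝ) + 1) * √((2 : ℝ) ^ (jk k + 1)) := by
          rw [div_eq_mul_one_div, mul_comm]
          exact mul_le_mul_of_nonneg_left h6 (by positivity)
        rw [mul_assoc]
        exact mul_le_mul_of_nonneg_left h7 (by positivity)
      have h2 := hdiff.add hul
      rw [zero_add] at h2
      refine h2.congr fun k => ?_
      ring
    -- the frequency `1`
    obtain ⟨i1, hi1⟩ : ∃ i, zs i = 1 := by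
      have : (1 : Circle) ∈ (Z : Set Circle) := Z.one_mem
      rw [hzs] at this
      exact this
    have hL1 : L 1 = ((κ / β : ℝ) : ℂ) := by
      rw [hL]
      simp only
      rw [hρ1, hφ''1, one_mul, one_mul, ← Complex.ofReal_add]
      congr 1
      rw [hΘ]
      field_simp
      ring
    have hLne : L 1 ≠ 0 := by
      rw [hL1]
      exact_mod_cast (by positivity : κ / β ≠ 0)
    have hcount : Tendsto (fun k => ((#(below A (2 ^ (jk k + 1))) : ℕ) : ℂ) /
        ((√((2 : ℝ) ^ (jk k + 1)) : ℝ) : ℂ)) atTop (nhds (L 1)) := by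
      have h2 := hnorm i1
      rw [hi1] at h2
      refine h2.congr fun k => ?_
      simp
    intro z hz
    have hz' : z ∈ Set.range zs := by rw [← hzs]; exact hz
    obtain ⟨i, rfl⟩ := hz'
    have h2 := (hnorm i).div hcount hLne
    have h3 : L (zs i) / L 1 = φ (zs i) := by
      rw [div_eq_iff hLne, hL1, ← hcomb (zs i), hL]
      simp only
      have h4 : ((Θ / (2 * √2) : ℝ) : ℂ) = ((κ * (1 - β) / β : ℝ) : ℂ) := by
        congr 1
        rw [hΘ]
        field_simp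
      rw [h4]
      push_cast
      have hβne : (β : ℂ) ≠ 0 := by exact_mod_cast hβ0.ne'
      field_simp
    rw [h3] at h2
    refine h2.congr fun k => ?_
    have h5 : ((√((2 : ℝ) ^ (jk k + 1)) : ℝ) : ℂ) ≠ 0 := by
      exact_mod_cast (Real.sqrt_pos.2 (by positivity : (0 : ℝ) < 2 ^ (jk k + 1))).ne'
    unfold mean
    simp only [Pi.div_apply]
    rw [div_div_div_cancel_right₀ h5]

end Pool.Agent.Helper80.JB
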