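import Pool.Agent.Helper80.JB.Phi
import Pool.Agent.Helper38.JB.Defs3

/-!
# The blocks of the basis, and one scale with Følner sets
-/

set_option autoImplicit false

open Finset Filter
open scoped ComplexConjugate ComplexOrder

namespace Pool.Agent.Helper80.JB

open Pool.Agent.Helper25.RC (below mem_below rep)
open Pool.Agent.Helper38.SP (PosDef quad)
open Pool.Agent.Helper38.JB (IsJ OneY)

open Classical in
/-- the part of `J` in `[2 ^ j, 2 ^ (j + 1))`, moved to `0` -/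
noncomputable def GG (J : Set ℕ) (j : ℕ) : Finset ℕ := {b ∈ range (2 ^ j) | 2 ^ j + b ∈ J}

theorem mem_GG {J : Set ℕ} {j b : ℕ} : b ∈ GG J j ↔ b < 2 ^ j ∧ 2 ^ j + b ∈ J := by
  classical
  simp [GG]

theorem GG_short {J : Set ℕ} {K : ℝ} (hK : 0 ≤ K)
    (h : ∀ u v : ℕ, 1 ≤ u → u ≤ v → v ≤ 2 * u →
      (((below J v) \ (below J u)).card : ℝ) ≤ K * (((v : ℝ) - u) / √u + 1)) (j : ℕ) (u v : ℕ)
    (huv : u ≤ v) (hv : v ≤ 2 ^ j) :
    (((GG J j).filter fun a => u ≤ a ∧ a < v).card : ℝ) ≤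
      K * (((v : ℝ) - u) / √((2 : ℝ) ^ j) + 1) := by
  have hj : 0 < 2 ^ j := by positivity
  have h1 := h (2 ^ j + u) (2 ^ j + v) (by omega) (by omega) (by omega)
  have h2 : ((GG J j).filter fun a => u ≤ a ∧ a < v).card ≤
      ((below J (2 ^ j + v)) \ (below J (2 ^ j + u))).card := by
    refine card_le_card_of_injOn (fun a => 2 ^ j + a) ?_ fun a _ b _ hab => Nat.add_left_cancel hab
    intro a ha
    rw [mem_coe, mem_filter, mem_GG] at ha
    rw [mem_coe, Finset.mem_sdiff, mem_below, mem_below]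
    obtain ⟨⟨h3, h4⟩, h5, h6⟩ := ha
    exact ⟨⟨by simp only; omega, h4⟩, fun h7 => by have := h7.1; simp only at this; omega⟩
  have h3 : (((GG J j).filter fun a => u ≤ a ∧ a < v).card : ℝ) ≤
      ((below J (2 ^ j + v)) \ (below J (2 ^ j + u))).card := by exact_mod_cast h2
  refine h3.trans (h1.trans (mul_le_mul_of_nonneg_left ?_ hK))
  push_cast
  have h4 : ((2 : ℝ) ^ j + v - (2 ^ j + u)) = v - u := by ring
  rw [h4]
  have h5 : (u : ℝ) ≤ v := by exact_mod_cast huv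
  have h6 : √((2 : ℝ) ^ j) ≤ √((2 : ℝ) ^ j + u) :=
    Real.sqrt_le_sqrt (by linarith [Nat.cast_nonneg (α := ℝ) u])
  have h7 : 0 < √((2 : ℝ) ^ j) := Real.sqrt_pos.2 (by positivity)
  have h8 := div_le_div_of_nonneg_left (sub_nonneg.2 h5) h7 h6
  linarith

theorem GG_sum (J : Set ℕ) (j y : ℕ) (hy : y ≤ 2 ^ j) (z : ℂ) :
    ∑ a ∈ (GG J j).filter (fun a => a < y), z ^ (2 ^ j + a) =
      ∑ a ∈ below J (2 ^ j + y), z ^ a - ∑ a ∈ below J (2 ^ j), z ^ a := by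
  have hsub : below J (2 ^ j) ⊆ below J (2 ^ j + y) := fun n hn => by
    rw [mem_below] at hn ⊢
    exact ⟨by omega, hn.2⟩
  have himg : below J (2 ^ j + y) \ below J (2 ^ j) =
      ((GG J j).filter (fun a => a < y)).image fun a => 2 ^ j + a := by
    ext n
    rw [Finset.mem_sdiff, mem_below, mem_below, mem_image]
    constructor
    · rintro ⟨⟨h1, h2⟩, h3⟩
      have h4 : 2 ^ j ≤ n := by
        by_contra hcon
        exact h3 ⟨by omega, h2⟩
      have h5 : 2 ^ j + (n - 2 ^ j) = n := by omega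
      refine ⟨n - 2 ^ j, mem_filter.2 ⟨mem_GG.2 ⟨by omega, ?_⟩, by omega⟩, h5⟩
      rw [h5]
      exact h2
    · rintro ⟨b, hb, rfl⟩
      rw [mem_filter, mem_GG] at hb
      obtain ⟨⟨h3, h4⟩, h5⟩ := hb
      exact ⟨⟨by omega, h4⟩, fun h7 => by have := h7.1; omega⟩
  rw [eq_sub_iff_add_eq, ← sum_sdiff hsub, himg,
    sum_image fun a _ b _ hab => Nat.add_left_cancel hab]

theorem GG_char {J : Set ℕ} {z : Circle}
    (h : ∀ ε : ℝ, 0 < ε → ∀ᶠ x : ℕ in atTop, ‖∑ a ∈ below J x, (z : ℂ) ^ a‖ ≤ ε * √x)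
    {ε : ℝ} (hε : 0 < ε) :
    ∀ᶠ j : ℕ in atTop, ∀ y ≤ 2 ^ j,
      ‖∑ a ∈ (GG J j).filter (fun a => a < y), (z : ℂ) ^ (2 ^ j + a)‖ ≤ ε * √((2 : ℝ) ^ j) := by
  obtain ⟨X, hX⟩ := eventually_atTop.1 (h (ε / 3) (by positivity))
  filter_upwards [eventually_ge_atTop X] with j hj y hy
  have h0 : X ≤ 2 ^ j := hj.trans (Nat.lt_two_pow_self).le
  have h1 := hX (2 ^ j + y) (by omega)
  have h2 := hX (2 ^ j) h0
  rw [GG_sum J j y hy]
  refine (norm_sub_le _ _).trans ?_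
  push_cast at h1 h2
  have hy' : (y : ℝ) ≤ 2 ^ j := by exact_mod_cast hy
  have h3 : √((2 : ℝ) ^ j + y) ≤ 2 * √((2 : ℝ) ^ j) := by
    calc √((2 : ℝ) ^ j + y) ≤ √(2 ^ 2 * (2 : ℝ) ^ j) := Real.sqrt_le_sqrt (by
          have : (0 : ℝ) < 2 ^ j := by positivity
          linarith)
      _ = 2 * √((2 : ℝ) ^ j) := by rw [Real.sqrt_mul (by positivity), Real.sqrt_sq (by norm_num)]
  have h4 := mul_le_mul_of_nonneg_left h3 (by positivity : 0 ≤ ε / 3)
  linarith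

open Classical in
/-- **one scale** for all finite sets of frequencies -/
theorem oneY_all (hY : OneY) (Z : Subgroup Circle) {J : Set ℕ} {K : ℝ} (hJ : IsJ Z J K)
    (φ : Circle → ℂ) (h1 : φ 1 = 1) (hs : Summable fun z : Z => ‖φ z‖ ^ 4) {t : ℝ} (ht0 : 0 < t)
    (ht : PosDef (Z : Set Circle) fun z => φ z - if z = 1 then (t : ℂ) else 0) :
    ∃ Θ D : ℝ, 0 < Θ ∧ 0 < D ∧ ∀ F : Finset Circle, (∀ ζ ∈ F, ζ ∈ Z) → ∀ s : ℕ, 0 < s →
      ∀ᶠ j : ℕ in atTop, ∃ B : Finset ℕ, (∀ b ∈ B, b < 2 ^ j) ∧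
        ((quad B).card : ℝ) ≤ D * 2 ^ j ∧
        ((B ∩ GG J j).card : ℝ) ≤ √((2 : ℝ) ^ j) / s ∧
        ∀ z : Circle, z = 1 ∨ z ∈ F → ∀ y ≤ 2 ^ j,
          ‖∑ a ∈ B.filter (fun a => a < y), (z : ℂ) ^ (2 ^ j + a) +
            ∑ a ∈ (GG J j).filter (fun a => a < y), (z : ℂ) ^ (2 ^ j + a) -
            φ z * ((Θ * y / √((2 : ℝ) ^ j) : ℝ) : ℂ)‖ ≤ √((2 : ℝ) ^ j) / s := by
  obtain ⟨hJ1, hJ2, hJ3, hJ4⟩ := hJ
  have hK0 : 0 ≤ K := by
    have h2 := hJ1 1
    rw [Nat.cast_one, mul_one] at h2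
    exact le_trans (sum_nonneg fun n _ => by positivity) h2
  have hpd : PosDef (Z : Set Circle) φ := by
    have h2 := posDef_add ht (posDef_delta (Z : Set Circle) ht0.le)
    have h3 : (fun z : Circle => (φ z - if z = 1 then (t : ℂ) else 0) +
        if z = 1 then (t : ℂ) else 0) = φ := by
      funext z
      ring
    rwa [h3] at h2
  have hΦ : ∀ S : Finset Circle, (∀ s ∈ S, s ∈ Z) →
      ∑ s ∈ S, ‖φ s‖ ^ 4 ≤ ∑' z : Z, ‖φ z‖ ^ 4 := by
    intro T hT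
    have h2 := hs.sum_le_tsum (T.subtype fun z => z ∈ Z) fun _ _ => by positivity
    refine le_trans (le_of_eq ?_) h2
    rw [sum_subtype_of_mem (fun z => ‖φ z‖ ^ 4) hT]
  obtain ⟨Θ, D, hΘ, hD, hmain⟩ := hY Z φ hpd h1 _ hΦ t ht0 ht (K + 1) (by linarith)
  refine ⟨Θ, D, hΘ, hD, fun F hF s hs0 => ?_⟩
  have hs' : (0 : ℝ) < s := by exact_mod_cast hs0
  obtain ⟨S, hSne, hS⟩ := Pool.Agent.Helper80.SP.folner (G := Z) (F.subtype fun z => z ∈ Z)
    (1 / (4 * (Θ + 1) * s)) (by positivity)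
  have hev := hmain F hF s hs0 (S.map ⟨Subtype.val, Subtype.val_injective⟩) (hSne.map)
    (fun t ht => by
      rw [Finset.mem_map] at ht
      obtain ⟨w, _, rfl⟩ := ht
      exact w.2) (fun z hz => by
      have h2 := hS ⟨z, hF z hz⟩ (mem_subtype.2 hz)
      rw [card_map]
      refine h2.trans ?_
      have h3 : #(S.filter fun t => t * (⟨z, hF z hz⟩ : Z) ∈ S) ≤
          #((S.map ⟨Subtype.val, Subtype.val_injective⟩).filter
            fun t => t * z ∈ S.map ⟨Subtype.val, Subtype.val_injective⟩) := by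
        refine card_le_card_of_injOn (fun t : Z => (t : Circle)) ?_ ?_
        · intro t ht
          have ht' := mem_filter.1 (mem_coe.1 ht)
          refine mem_coe.2 (mem_filter.2 ⟨?_, ?_⟩)
          · exact Finset.mem_map.2 ⟨t, ht'.1, rfl⟩
          · exact Finset.mem_map.2 ⟨t * ⟨z, hF z hz⟩, ht'.2, rfl⟩
        · intro a _ b _ h
          exact Subtype.val_injective h
      exact_mod_cast h3)
  have hch : ∀ z ∈ F, ∀ᶠ j : ℕ in atTop, z ≠ 1 → ∀ y ≤ 2 ^ j,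
      ‖∑ a ∈ (GG J j).filter (fun a => a < y), (z : ℂ) ^ (2 ^ j + a)‖ ≤
        √((2 : ℝ) ^ j) / (8 * s) := by
    intro z hz
    by_cases hz1 : z = 1
    · exact Eventually.of_forall fun j h => absurd hz1 h
    · filter_upwards [GG_char (hJ4 z (hF z hz) hz1) (ε := 1 / (8 * s)) (by positivity)] with j hj _
      intro y hy
      refine (hj y hy).trans (le_of_eq ?_)
      ring
  have hch' := (Filter.eventually_all_finset F).2 hch
  filter_upwards [hev, hch'] with j h2 h3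
  obtain ⟨B, hB1, hB2, hB3, hB4⟩ := h2 (GG J j) (fun a ha => (mem_GG.1 ha).1)
    (fun u v huv hv => (GG_short hK0 hJ3 j u v huv hv).trans
      (mul_le_mul_of_nonneg_right (by linarith) (by
        have h5 : (u : ℝ) ≤ v := by exact_mod_cast huv
        have := sub_nonneg.2 h5
        positivity)))
    (fun z hz hz1 y hy => h3 z hz hz1 y hy)
  exact ⟨B, hB1, hB2, hB3, fun z hz y hy => hB4 z (mem_insert.2 hz) y hy⟩

end Pool.Agent.Helper80.JB
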