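import Pool.Agent.Helper38.SP.One
import Pool.Agent.Helper38.JB.Defs3

/-!
# Cells: the local density of a finite set, and the passage from the cuts to all positions
-/

set_option autoImplicit false

open Finset Filter
open scoped ComplexConjugate ComplexOrder

namespace Pool.Agent.Helper80.JB

open Pool.Agent.Helper38.SP (PosDef wt)
open Pool.Agent.Helper80.SP (cs cs_nonneg geom_le)

/-- the local density of `G` at `a` -/
noncomputable def dn (G : Finset ℕ) (L a : ℕ) : ℝ := (#(G.filter fun b => b / L = a / L) : ℝ) / L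

theorem dn_nonneg (G : Finset ℕ) (L a : ℕ) : 0 ≤ dn G L a := by unfold dn; positivity

theorem dn_cell (G : Finset ℕ) {L : ℕ} (hL : 0 < L) (k : ℕ) {b : ℕ} (hb : b < L) :
    dn G L (k * L + b) = (#(G.filter fun c => c / L = k) : ℝ) / L := by
  unfold dn
  have h1 : (k * L + b) / L = k := by
    rw [add_comm, Nat.add_mul_div_right _ _ hL, Nat.div_eq_of_lt hb, zero_add]
  rw [h1]

theorem card_cut (G : Finset ℕ) {L : ℕ} (hL : 0 < L) (k : ℕ) :
    #(G.filter fun a => a < (k + 1) * L) =
      #(G.filter fun a => a < k * L) + #(G.filter fun a => a / L = k) := by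
  rw [← card_union_of_disjoint]
  · congr 1
    ext a
    rw [mem_union, mem_filter, mem_filter, mem_filter]
    have h1 : a < (k + 1) * L ↔ a / L < k + 1 := (Nat.div_lt_iff_lt_mul hL).symm
    have h2 : a < k * L ↔ a / L < k := (Nat.div_lt_iff_lt_mul hL).symm
    rw [h1, h2]
    constructor
    · rintro ⟨h3, h4⟩
      rcases Nat.lt_or_ge (a / L) k with h5 | h5
      · exact Or.inl ⟨h3, h5⟩
      · exact Or.inr ⟨h3, by omega⟩
    · rintro (⟨h3, h4⟩ | ⟨h3, h4⟩)
      · exact ⟨h3, by omega⟩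
      · exact ⟨h3, by omega⟩
  · rw [disjoint_left]
    intro a h1 h2
    rw [mem_filter] at h1 h2
    have h3 : a / L < k := (Nat.div_lt_iff_lt_mul hL).2 h1.2
    omega

/-- the sum of the densities at the cuts -/
theorem sum_dn (G : Finset ℕ) {L : ℕ} (hL : 0 < L) (k : ℕ) :
    ∑ a ∈ range (k * L), dn G L a = #(G.filter fun a => a < k * L) := by
  induction k with
  | zero => simp
  | succ k ih =>
    rw [card_cut G hL k, Nat.cast_add, ← ih, Nat.succ_mul, sum_range_add,
      sum_congr rfl fun b hb => dn_cell G hL k (mem_range.1 hb), sum_const, card_range,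
      nsmul_eq_mul, mul_div_cancel₀]
    exact_mod_cast hL.ne'

/-- the characters against the densities -/
theorem sum_dn_char (G : Finset ℕ) {L : ℕ} (hL : 0 < L) {d : ℝ} (K0 : ℕ)
    (hd : ∀ k < K0, (#(G.filter fun c => c / L = k) : ℝ) / L ≤ d) (z : Circle) (hz : z ≠ 1)
    (m : ℕ) (k : ℕ) (hk : k ≤ K0) :
    ‖∑ a ∈ range (k * L), (dn G L a : ℂ) * (z : ℂ) ^ (m + a)‖ ≤ k * (d * cs z) := by
  induction k with
  | zero => simp
  | succ k ih =>
    have ih' := ih (by omega)
    rw [Nat.succ_mul, sum_range_add]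
    refine (norm_add_le _ _).trans ?_
    have h1 : ∑ b ∈ range L, (dn G L (k * L + b) : ℂ) * (z : ℂ) ^ (m + (k * L + b)) =
        (((#(G.filter fun c => c / L = k) : ℝ) / L : ℝ) : ℂ) * (z : ℂ) ^ (m + k * L) *
          ∑ b ∈ range L, (z : ℂ) ^ b := by
      rw [mul_sum]
      refine sum_congr rfl fun b hb => ?_
      rw [dn_cell G hL k (mem_range.1 hb), mul_assoc, ← pow_add, add_assoc]
    rw [h1, norm_mul, norm_mul, norm_pow, Circle.norm_coe, one_pow, mul_one, Complex.norm_real,
      Real.norm_eq_abs, abs_of_nonneg (by positivity)]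
    have h2 := mul_le_mul (hd k (by omega)) (geom_le z hz L) (norm_nonneg _)
      (le_trans (by positivity) (hd k (by omega)))
    push_cast
    linarith

/-- **from the cuts to all positions** -/
theorem cuts (B G : Finset ℕ) (N L K0 : ℕ) (hL : 0 < L) (hN : K0 * L = N) (u : ℕ → ℂ)
    (hu : ∀ a, ‖u a‖ ≤ 1) (w : ℂ) (T e1 e2 : ℝ) (hT : 0 ≤ T)
    (h1 : ∀ k ≤ K0, ‖∑ a ∈ B.filter (fun a => a < k * L), u a +
      ∑ a ∈ G.filter (fun a => a < k * L), u a - w * ((T * (k * L : ℕ) : ℝ) : ℂ)‖ ≤ e1)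
    (h2 : ∀ k ≤ K0, |(#(B.filter fun a => a < k * L) : ℝ) + #(G.filter fun a => a < k * L) -
      T * (k * L : ℕ)| ≤ e2) (he2 : 0 ≤ e2) (y : ℕ) (hy : y ≤ N) :
    ‖∑ a ∈ B.filter (fun a => a < y), u a + ∑ a ∈ G.filter (fun a => a < y), u a -
      w * ((T * y : ℝ) : ℂ)‖ ≤ e1 + 2 * e2 + (1 + ‖w‖) * (T * L) := by
  rcases Nat.eq_or_lt_of_le hy with hyN | hyN
  · have h3 := h1 K0 le_rfl
    rw [hN, ← hyN] at h3
    refine h3.trans ?_
    have : 0 ≤ (1 + ‖w‖) * (T * L) := by positivity
    linarith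
  · obtain ⟨k, hk⟩ : ∃ k, k = y / L := ⟨_, rfl⟩
    have hky : k * L ≤ y := by rw [hk]; exact Nat.div_mul_le_self y L
    have hyk : y < (k + 1) * L := by
      rw [hk]
      exact (Nat.div_lt_iff_lt_mul hL).1 (Nat.lt_succ_self _)
    have hkK : k + 1 ≤ K0 := by
      have h3 : y / L < K0 := (Nat.div_lt_iff_lt_mul hL).2 (by rw [hN]; exact hyN)
      omega
    -- one set
    have hone : ∀ S : Finset ℕ, ‖∑ a ∈ S.filter (fun a => a < y), u a -
        ∑ a ∈ S.filter (fun a => a < k * L), u a‖ ≤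
        (#(S.filter fun a => a < (k + 1) * L) : ℝ) - #(S.filter fun a => a < k * L) := by
      intro S
      have hs1 : S.filter (fun a => a < k * L) ⊆ S.filter (fun a => a < y) := fun a ha => by
        rw [mem_filter] at ha ⊢
        exact ⟨ha.1, lt_of_lt_of_le ha.2 hky⟩
      have hs2 : S.filter (fun a => a < y) ⊆ S.filter (fun a => a < (k + 1) * L) := fun a ha => by
        rw [mem_filter] at ha ⊢
        exact ⟨ha.1, ha.2.trans hyk⟩
      rw [← sum_sdiff hs1, add_sub_cancel_right]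
      refine (norm_sum_le _ _).trans ((sum_le_sum fun a _ => hu a).trans ?_)
      rw [sum_const, nsmul_eq_mul, mul_one]
      have h3 : #(S.filter (fun a => a < y) \ S.filter (fun a => a < k * L)) +
          #(S.filter fun a => a < k * L) ≤ #(S.filter fun a => a < (k + 1) * L) := by
        rw [card_sdiff_add_card_eq_card hs1]
        exact card_le_card hs2
      have h4 : (#(S.filter (fun a => a < y) \ S.filter (fun a => a < k * L)) : ℝ) +
          #(S.filter fun a => a < k * L) ≤ #(S.filter fun a => a < (k + 1) * L) := by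
        exact_mod_cast h3
      linarith
    have hB := hone B
    have hG := hone G
    have h3 := h1 k (by omega)
    have h4 := abs_le.1 (h2 k (by omega))
    have h5 := abs_le.1 (h2 (k + 1) hkK)
    have h6 : ‖w * ((T * (k * L : ℕ) : ℝ) : ℂ) - w * ((T * y : ℝ) : ℂ)‖ ≤ ‖w‖ * (T * L) := by
      rw [← mul_sub, norm_mul, ← Complex.ofReal_sub, Complex.norm_real, Real.norm_eq_abs]
      refine mul_le_mul_of_nonneg_left ?_ (norm_nonneg w)
      rw [← mul_sub, abs_mul, abs_of_nonneg hT]
      refine mul_le_mul_of_nonneg_left ?_ hT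
      have h7 : ((k * L : ℕ) : ℝ) ≤ y := by exact_mod_cast hky
      have h8 : (y : ℝ) ≤ (k * L : ℕ) + L := by
        have : y ≤ k * L + L := by rw [← Nat.succ_mul]; exact hyk.le
        exact_mod_cast this
      rw [abs_le]
      constructor <;> linarith
    have h7 : ∑ a ∈ B.filter (fun a => a < y), u a + ∑ a ∈ G.filter (fun a => a < y), u a -
        w * ((T * y : ℝ) : ℂ) =
        (∑ a ∈ B.filter (fun a => a < k * L), u a +
          ∑ a ∈ G.filter (fun a => a < k * L), u a - w * ((T * (k * L : ℕ) : ℝ) : ℂ)) +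
        (∑ a ∈ B.filter (fun a => a < y), u a - ∑ a ∈ B.filter (fun a => a < k * L), u a) +
        (∑ a ∈ G.filter (fun a => a < y), u a - ∑ a ∈ G.filter (fun a => a < k * L), u a) +
        (w * ((T * (k * L : ℕ) : ℝ) : ℂ) - w * ((T * y : ℝ) : ℂ)) := by ring
    rw [h7]
    refine (norm_add_le _ _).trans ?_
    have h8 := norm_add_le ((∑ a ∈ B.filter (fun a => a < k * L), u a +
          ∑ a ∈ G.filter (fun a => a < k * L), u a - w * ((T * (k * L : ℕ) : ℝ) : ℂ)) +
        (∑ a ∈ B.filter (fun a => a < y), u a - ∑ a ∈ B.filter (fun a => a < k * L), u a))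
        (∑ a ∈ G.filter (fun a => a < y), u a - ∑ a ∈ G.filter (fun a => a < k * L), u a)
    have h9 := norm_add_le (∑ a ∈ B.filter (fun a => a < k * L), u a +
          ∑ a ∈ G.filter (fun a => a < k * L), u a - w * ((T * (k * L : ℕ) : ℝ) : ℂ))
        (∑ a ∈ B.filter (fun a => a < y), u a - ∑ a ∈ B.filter (fun a => a < k * L), u a)
    have h10 : (T : ℝ) * ((k + 1) * L : ℕ) = T * (k * L : ℕ) + T * L := by
      push_cast
      ring
    rw [h10] at h5
    linarith [h4.1, h4.2, h5.1, h5.2]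

open Classical in
/-- the weights are at least `t` -/
theorem wt_ge {Z : Set Circle} {φ : Circle → ℂ} (hpd : PosDef Z φ) {t : ℝ}
    (h : PosDef Z fun z => φ z - if z = 1 then (t : ℂ) else 0) {S : Finset Circle}
    (hS : ∀ s ∈ S, s ∈ Z) (hSne : S.Nonempty) (a : ℕ) : t ≤ wt S φ a := by
  obtain ⟨h1, h2⟩ := Pool.Agent.Helper38.SP.wt_complex h hS a
  have h3 := (Pool.Agent.Helper38.SP.wt_complex hpd hS a).2
  have hS0 : (S.card : ℂ) ≠ 0 := by exact_mod_cast (card_pos.2 hSne).ne'
  have h4 : ((wt S φ a - wt S (fun z => φ z - if z = 1 then (t : ℂ) else 0) a : ℝ) : ℂ) =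
      (t : ℂ) := by
    rw [Complex.ofReal_sub, h2, h3, ← mul_sub, ← sum_sub_distrib]
    have h5 : ∀ s ∈ S, ∑ r ∈ S, φ (s / r) * (((s / r)⁻¹ : Circle) : ℂ) ^ a -
        ∑ r ∈ S, (φ (s / r) - if s / r = 1 then (t : ℂ) else 0) *
          (((s / r)⁻¹ : Circle) : ℂ) ^ a = t := by
      intro s hs
      rw [← sum_sub_distrib]
      have h6 : ∀ r ∈ S, φ (s / r) * (((s / r)⁻¹ : Circle) : ℂ) ^ a -
          (φ (s / r) - if s / r = 1 then (t : ℂ) else 0) * (((s / r)⁻¹ : Circle) : ℂ) ^ a =
          if s = r then (t : ℂ) else 0 := by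
        intro r _
        by_cases hsr : s = r
        · rw [if_pos hsr, if_pos (div_eq_one.2 hsr), div_eq_one.2 hsr, inv_one, Circle.coe_one,
            one_pow]
          ring
        · rw [if_neg hsr, if_neg (fun h5 => hsr (div_eq_one.1 h5))]
          ring
      rw [sum_congr rfl h6, sum_ite_eq, if_pos hs]
    rw [sum_congr rfl h5, sum_const, nsmul_eq_mul]
    push_cast
    rw [← mul_assoc, inv_mul_cancel₀ hS0, one_mul]
  have h5 : wt S φ a - wt S (fun z => φ z - if z = 1 then (t : ℂ) else 0) a = t := by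
    exact_mod_cast h4
  linarith

end Pool.Agent.Helper80.JB
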