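import Pool.Agent.Helper25.RC.Defs

/-!
# The mean square of the representations of a union
-/

set_option autoImplicit false

open Finset

namespace Pool.Agent.Helper80.JB

open Pool.Agent.Helper25.RC (rep below mem_below)

theorem card_fib {α β γ : Type*} [DecidableEq α] [DecidableEq β] [DecidableEq γ] (S : Finset α)
    (T : Finset β) (f : α → γ) (g : β → γ) (D : Finset γ) (hD : ∀ u ∈ S, f u ∈ D) :
    #{p ∈ S ×ˢ T | f p.1 = g p.2} = ∑ d ∈ D, #{u ∈ S | f u = d} * #{v ∈ T | g v = d} := by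
  rw [card_eq_sum_card_fiberwise (f := fun p : α × β => f p.1) (t := D)]
  · refine sum_congr rfl fun d _ => ?_
    rw [← card_product]
    congr 1
    ext p
    simp only [mem_filter, mem_product]
    constructor
    · rintro ⟨⟨⟨h1, h2⟩, h3⟩, h4⟩
      exact ⟨⟨h1, h4⟩, h2, by rw [← h3, h4]⟩
    · rintro ⟨⟨h1, h2⟩, h3, h4⟩
      exact ⟨⟨⟨h1, h3⟩, by rw [h2, h4]⟩, h2⟩
  · intro p hp
    rw [mem_coe, mem_filter, mem_product] at hp
    exact hD _ hp.1.1

/-- representations by two finite sets -/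
def R (X Y : Finset ℕ) (n : ℕ) : ℕ := #{p ∈ X ×ˢ Y | p.1 + p.2 = n}

/-- the additive energy -/
def En (X Y : Finset ℕ) : ℕ := #{q ∈ (X ×ˢ Y) ×ˢ (X ×ˢ Y) | q.1.1 + q.1.2 = q.2.1 + q.2.2}

theorem sum_R_sq (X Y : Finset ℕ) (N : Finset ℕ) (hN : ∀ a ∈ X, ∀ b ∈ Y, a + b ∈ N) :
    ∑ n ∈ N, R X Y n ^ 2 = En X Y := by
  unfold En R
  rw [card_fib (X ×ˢ Y) (X ×ˢ Y) (fun u => u.1 + u.2) (fun u => u.1 + u.2) N fun u hu => by
    rw [mem_product] at hu
    exact hN _ hu.1 _ hu.2]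
  exact sum_congr rfl fun n _ => sq _

theorem sum_R_sq_le (X Y : Finset ℕ) (N : Finset ℕ) : ∑ n ∈ N, R X Y n ^ 2 ≤ En X Y := by
  have h1 := sum_R_sq X Y (N ∪ (X ×ˢ Y).image fun u => u.1 + u.2) fun a ha b hb =>
    mem_union_right _ (mem_image.2 ⟨(a, b), mem_product.2 ⟨ha, hb⟩, rfl⟩)
  rw [← h1]
  exact sum_le_sum_of_subset subset_union_left

theorem En_eq (X Y : Finset ℕ) :
    En X Y = #{q ∈ (X ×ˢ X) ×ˢ (Y ×ˢ Y) | (q.1.1 : ℤ) - q.1.2 = (q.2.1 : ℤ) - q.2.2} := by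
  unfold En
  refine card_nbij' (fun q => ((q.1.1, q.2.1), (q.2.2, q.1.2)))
    (fun q => ((q.1.1, q.2.2), (q.1.2, q.2.1))) ?_ ?_ ?_ ?_
  · intro q hq
    simp only [coe_filter, Set.mem_ofPred_eq, mem_product] at hq ⊢
    obtain ⟨⟨⟨h1, h2⟩, h3, h4⟩, h5⟩ := hq
    exact ⟨⟨⟨h1, h3⟩, h4, h2⟩, by omega⟩
  · intro q hq
    simp only [coe_filter, Set.mem_ofPred_eq, mem_product] at hq ⊢
    obtain ⟨⟨⟨h1, h2⟩, h3, h4⟩, h5⟩ := hq
    exact ⟨⟨⟨h1, h4⟩, h2, h3⟩, by omega⟩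
  · intro q _
    rfl
  · intro q _
    rfl

theorem two_En_le (X Y : Finset ℕ) : 2 * En X Y ≤ En X X + En Y Y := by
  classical
  obtain ⟨D, hD⟩ : ∃ D : Finset ℤ, D = ((X ×ˢ X).image fun u : ℕ × ℕ => (u.1 : ℤ) - u.2) ∪
    ((Y ×ˢ Y).image fun u : ℕ × ℕ => (u.1 : ℤ) - u.2) := ⟨_, rfl⟩
  have hX : ∀ u ∈ X ×ˢ X, (u.1 : ℤ) - u.2 ∈ D := fun u hu => by
    rw [hD]
    exact mem_union_left _ (mem_image.2 ⟨u, hu, rfl⟩)
  have hY : ∀ u ∈ Y ×ˢ Y, (u.1 : ℤ) - u.2 ∈ D := fun u hu => by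
    rw [hD]
    exact mem_union_right _ (mem_image.2 ⟨u, hu, rfl⟩)
  rw [En_eq, En_eq, En_eq,
    card_fib (X ×ˢ X) (Y ×ˢ Y) (fun u => (u.1 : ℤ) - u.2) (fun u => (u.1 : ℤ) - u.2) D hX,
    card_fib (X ×ˢ X) (X ×ˢ X) (fun u => (u.1 : ℤ) - u.2) (fun u => (u.1 : ℤ) - u.2) D hX,
    card_fib (Y ×ˢ Y) (Y ×ˢ Y) (fun u => (u.1 : ℤ) - u.2) (fun u => (u.1 : ℤ) - u.2) D hY,
    mul_sum, ← sum_add_distrib]
  refine sum_le_sum fun d _ => ?_
  have := two_mul_le_add_sq (#{u ∈ X ×ˢ X | (u.1 : ℤ) - u.2 = d})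
    (#{v ∈ Y ×ˢ Y | (v.1 : ℤ) - v.2 = d})
  nlinarith

theorem En_below_le (A : Set ℕ) (x : ℕ) :
    En (below A x) (below A x) ≤ ∑ n ∈ range (2 * x), rep A n ^ 2 := by
  rw [← sum_R_sq (below A x) (below A x) (range (2 * x)) fun a ha b hb => by
    rw [mem_below] at ha hb
    rw [mem_range]
    omega]
  refine sum_le_sum fun n _ => Nat.pow_le_pow_left ?_ 2
  unfold R Pool.Agent.Helper25.RC.rep
  refine card_le_card fun p hp => ?_
  rw [mem_filter, mem_product, mem_below, mem_below] at hp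
  simp only [mem_filter, HasAntidiagonal.mem_antidiagonal]
  exact ⟨hp.2, hp.1.1.2, hp.1.2.2⟩

theorem rep_union_le (A B : Set ℕ) (x n : ℕ) (hn : n < x) :
    rep (A ∪ B) n ≤ rep A n + R (below A x) (below B x) n + R (below B x) (below A x) n +
      rep B n := by
  classical
  obtain ⟨S, hS⟩ : ∃ S, S = A ∪ B := ⟨_, rfl⟩
  rw [← hS]
  have hmem : ∀ a, a ∈ S → a ∈ A ∨ a ∈ B := fun a ha => by rw [hS] at ha; exact ha
  unfold Pool.Agent.Helper25.RC.rep R
  refine (card_le_card (t := {p ∈ antidiagonal n | p.1 ∈ A ∧ p.2 ∈ A} ∪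
      {p ∈ below A x ×ˢ below B x | p.1 + p.2 = n} ∪
      {p ∈ below B x ×ˢ below A x | p.1 + p.2 = n} ∪
      {p ∈ antidiagonal n | p.1 ∈ B ∧ p.2 ∈ B}) ?_).trans ((card_union_le _ _).trans
        (Nat.add_le_add_right ((card_union_le _ _).trans
          (Nat.add_le_add_right (card_union_le _ _) _)) _))
  intro p hp
  rw [mem_filter, HasAntidiagonal.mem_antidiagonal] at hp
  obtain ⟨h1, h2, h3⟩ := hp
  simp only [mem_union, mem_filter, HasAntidiagonal.mem_antidiagonal, mem_product, mem_below]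
  have h4 : p.1 < x := by omega
  have h5 : p.2 < x := by omega
  rcases hmem _ h2 with h2 | h2 <;> rcases hmem _ h3 with h3 | h3
  · exact Or.inl (Or.inl (Or.inl ⟨h1, h2, h3⟩))
  · exact Or.inl (Or.inl (Or.inr ⟨⟨⟨h4, h2⟩, h5, h3⟩, h1⟩))
  · exact Or.inl (Or.inr ⟨⟨⟨h4, h2⟩, h5, h3⟩, h1⟩)
  · exact Or.inr ⟨h1, h2, h3⟩

/-- **the mean square of the representations of a union** -/
theorem mean_square_union {A B : Set ℕ} {C₁ C₂ : ℝ}
    (hA : ∀ x : ℕ, ∑ n ∈ range x, (rep A n : ℝ) ^ 2 ≤ C₁ * x)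
    (hB : ∀ x : ℕ, ∑ n ∈ range x, (rep B n : ℝ) ^ 2 ≤ C₂ * x) (x : ℕ) :
    ∑ n ∈ range x, (rep (A ∪ B) n : ℝ) ^ 2 ≤ 12 * (C₁ + C₂) * x := by
  have hEA : (En (below A x) (below A x) : ℝ) ≤ C₁ * (2 * x) := by
    have h1 := hA (2 * x)
    have h2 : (En (below A x) (below A x) : ℝ) ≤ ∑ n ∈ range (2 * x), (rep A n : ℝ) ^ 2 := by
      exact_mod_cast En_below_le A x
    push_cast at h1
    linarith
  have hEB : (En (below B x) (below B x) : ℝ) ≤ C₂ * (2 * x) := by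
    have h1 := hB (2 * x)
    have h2 : (En (below B x) (below B x) : ℝ) ≤ ∑ n ∈ range (2 * x), (rep B n : ℝ) ^ 2 := by
      exact_mod_cast En_below_le B x
    push_cast at h1
    linarith
  have hAB : ∑ n ∈ range x, (R (below A x) (below B x) n : ℝ) ^ 2 ≤ (C₁ + C₂) * x := by
    have h1 : ∑ n ∈ range x, (R (below A x) (below B x) n : ℝ) ^ 2 ≤
        (En (below A x) (below B x) : ℝ) := by
      exact_mod_cast sum_R_sq_le (below A x) (below B x) (range x)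
    have h2 : 2 * (En (below A x) (below B x) : ℝ) ≤
        En (below A x) (below A x) + En (below B x) (below B x) := by
      exact_mod_cast two_En_le (below A x) (below B x)
    linarith
  have hBA : ∑ n ∈ range x, (R (below B x) (below A x) n : ℝ) ^ 2 ≤ (C₁ + C₂) * x := by
    have h1 : ∑ n ∈ range x, (R (below B x) (below A x) n : ℝ) ^ 2 ≤
        (En (below B x) (below A x) : ℝ) := by
      exact_mod_cast sum_R_sq_le (below B x) (below A x) (range x)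
    have h2 : 2 * (En (below B x) (below A x) : ℝ) ≤
        En (below B x) (below B x) + En (below A x) (below A x) := by
      exact_mod_cast two_En_le (below B x) (below A x)
    linarith
  have hpt : ∀ n ∈ range x, (rep (A ∪ B) n : ℝ) ^ 2 ≤ 4 * (rep A n : ℝ) ^ 2 +
      4 * (R (below A x) (below B x) n : ℝ) ^ 2 + 4 * (R (below B x) (below A x) n : ℝ) ^ 2 +
      4 * (rep B n : ℝ) ^ 2 := by
    intro n hn
    have h1 : (rep (A ∪ B) n : ℝ) ≤ rep A n + R (below A x) (below B x) n +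
        R (below B x) (below A x) n + rep B n := by
      exact_mod_cast rep_union_le A B x n (mem_range.1 hn)
    have h2 := pow_le_pow_left₀ (Nat.cast_nonneg _) h1 2
    refine h2.trans ?_
    have h3 := sq_nonneg ((rep A n : ℝ) - R (below A x) (below B x) n)
    have h4 := sq_nonneg ((rep A n : ℝ) - R (below B x) (below A x) n)
    have h5 := sq_nonneg ((rep A n : ℝ) - rep B n)
    have h6 := sq_nonneg ((R (below A x) (below B x) n : ℝ) - R (below B x) (below A x) n)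
    have h7 := sq_nonneg ((R (below A x) (below B x) n : ℝ) - rep B n)
    have h8 := sq_nonneg ((R (below B x) (below A x) n : ℝ) - rep B n)
    nlinarith
  refine (sum_le_sum hpt).trans ?_
  rw [sum_add_distrib, sum_add_distrib, sum_add_distrib, ← mul_sum, ← mul_sum, ← mul_sum,
    ← mul_sum]
  have h1 := hA x
  have h2 := hB x
  linarith

end Pool.Agent.Helper80.JB
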