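import Pool.Agent.Helper38.JB.Defs
import Pool.Agent.Helper38.SP.Third
import Pool.Agent.Helper80.SP.Scale

/-!
# The law of the just basis along a subsequence of the odd scales
-/

set_option autoImplicit false

open Finset Filter
open scoped ComplexConjugate ComplexOrder

namespace Pool.Agent.Helper80.JB

open Pool.Agent.Helper25.RC (below mem_below rep)
open Pool.Agent.Helper5.RC (sol AA)
open Pool.Agent.Helper80.RC (chain_two)
open Pool.Agent.Helper80.SP (mean mean_form exists_limitS necS')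
open Pool.Agent.Helper38.SP (PosDef diag_form)
open Pool.Agent.Helper38.JB (IsBase)

/-- a sparse sequence -/
theorem exists_sparse (Q : ℕ → ℕ → Prop) (hQ : ∀ k, ∀ᶠ m in atTop, Q k m) (G : ℕ → ℕ → ℕ) :
    ∃ h : ℕ → ℕ, StrictMono h ∧ (∀ k, Q k (h k)) ∧ ∀ k, G k (h k) ≤ h (k + 1) := by
  have hQ' : ∀ k, ∃ T, ∀ m, T ≤ m → Q k m := fun k => eventually_atTop.1 (hQ k)
  choose T hT using hQ'
  obtain ⟨h, hh0, hh⟩ : ∃ h : ℕ → ℕ, h 0 = T 0 ∧
      ∀ k, h (k + 1) = max (T (k + 1)) (max (G k (h k)) (h k + 1)) :=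
    ⟨fun n => Nat.rec (T 0) (fun k hk => max (T (k + 1)) (max (G k hk) (hk + 1))) n,
      rfl, fun _ => rfl⟩
  refine ⟨h, strictMono_nat_of_lt_succ fun k => ?_, fun k => ?_, fun k => ?_⟩
  · rw [hh]
    exact lt_of_lt_of_le (Nat.lt_succ_self _) ((le_max_right _ _).trans (le_max_right _ _))
  · cases k with
    | zero => exact hT 0 _ hh0.ge
    | succ k =>
      refine hT (k + 1) _ ?_
      rw [hh]
      exact le_max_left _ _
  · rw [hh]
    exact (le_max_left _ _).trans (le_max_right _ _)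

theorem posDef_add {Z : Set Circle} {φ ψ : Circle → ℂ} (h1 : PosDef Z φ) (h2 : PosDef Z ψ) :
    PosDef Z fun z => φ z + ψ z := by
  intro S hS c
  have h := add_nonneg (h1 S hS c) (h2 S hS c)
  refine h.trans (le_of_eq ?_)
  rw [← sum_add_distrib]
  refine sum_congr rfl fun s _ => ?_
  rw [← sum_add_distrib]
  exact sum_congr rfl fun t _ => (mul_add _ _ _).symm

theorem posDef_smul {Z : Set Circle} {φ : Circle → ℂ} (h1 : PosDef Z φ) {r : ℝ} (hr : 0 ≤ r) :
    PosDef Z fun z => (r : ℂ) * φ z := by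
  intro S hS c
  have h := mul_nonneg (Complex.zero_le_real.2 hr) (h1 S hS c)
  refine h.trans (le_of_eq ?_)
  rw [mul_sum]
  refine sum_congr rfl fun s _ => ?_
  rw [mul_sum]
  exact sum_congr rfl fun t _ => by ring

open Classical in
theorem posDef_delta (Z : Set Circle) {r : ℝ} (hr : 0 ≤ r) :
    PosDef Z fun z => if z = 1 then (r : ℂ) else 0 := by
  intro S hS c
  have h := diag_form S c r
  refine le_of_le_of_eq ?_ h.symm
  exact Complex.zero_le_real.2 (by positivity)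

theorem posDef_one {Z : Set Circle} (hZ : (1 : Circle) ∈ Z) {φ : Circle → ℂ} (h : PosDef Z φ) :
    0 ≤ φ 1 := by
  have h1 := h {1} (fun s hs => by rw [mem_singleton.1 hs]; exact hZ) fun _ => 1
  simpa using h1

/-- the elements of a basis -/
theorem basis_thick {J : Set ℕ} (h : ∀ᶠ n : ℕ in atTop, 1 ≤ rep J n) :
    ∀ᶠ x : ℕ in atTop, 1 / 2 * √x ≤ #(below J x) := by
  classical
  obtain ⟨n0, hn0⟩ := eventually_atTop.1 h
  filter_upwards [eventually_ge_atTop (2 * n0)] with x hx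
  have h1 : x - n0 ≤ #(below J x) * #(below J x) := by
    rw [← card_product]
    have h2 : Ico n0 x ⊆ (below J x ×ˢ below J x).image fun p => p.1 + p.2 := by
      intro n hn
      rw [mem_Ico] at hn
      have h3 := hn0 n hn.1
      unfold Pool.Agent.Helper25.RC.rep at h3
      obtain ⟨p, hp⟩ := card_pos.1 (Nat.lt_of_lt_of_le Nat.zero_lt_one h3)
      rw [mem_filter, HasAntidiagonal.mem_antidiagonal] at hp
      rw [mem_image]
      refine ⟨p, ?_, hp.1⟩
      rw [mem_product, mem_below, mem_below]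
      exact ⟨⟨by omega, hp.2.1⟩, by omega, hp.2.2⟩
    have h3 := (card_le_card h2).trans card_image_le
    rwa [Nat.card_Ico] at h3
  have h2 : x ≤ 2 * (#(below J x) * #(below J x)) := by omega
  have h3 : (x : ℝ) ≤ 2 * (#(below J x) * #(below J x)) := by exact_mod_cast h2
  have h4 : √(x : ℝ) ≤ 2 * #(below J x) := by
    rw [← Real.sqrt_sq (by positivity : (0 : ℝ) ≤ 2 * #(below J x))]
    refine Real.sqrt_le_sqrt ?_
    nlinarith [sq_nonneg (#(below J x) : ℝ)]
  linarith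

open Classical in
/-- **the law of the just basis** -/
theorem law (Z : Subgroup Circle) (hZ : (Z : Set Circle).Countable) {BR : ℕ → Finset ℕ} {K : ℝ}
    (hB : IsBase Z BR K) : ∃ (g : ℕ → ℕ) (ρ : Circle → ℂ) (κ K' : ℝ), StrictMono g ∧
      (∀ n, Odd (g n)) ∧ 0 < κ ∧
      Tendsto (fun n => (#(below (AA (fun j => 2 ^ j) BR) (2 ^ (g n + 1))) : ℝ) /
        √((2 : ℝ) ^ (g n + 1))) atTop (nhds κ) ∧
      (∀ z ∈ Z, Tendsto (fun n => mean (AA (fun j => 2 ^ j) BR) (2 ^ (g n + 1)) z) atTop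
        (nhds (ρ z))) ∧
      ρ 1 = 1 ∧ PosDef (Z : Set Circle) ρ ∧ (Summable fun z : Z => ‖ρ z‖ ^ 4) ∧
      PosDef (Z : Set Circle) (fun z => (if z = 1 then (K' : ℂ) else 0) - ρ z) := by
  obtain ⟨_, hE, hbas, hlaw⟩ := hB
  obtain ⟨J, hJ⟩ : ∃ J, J = AA (fun j => 2 ^ j) BR := ⟨_, rfl⟩
  rw [← hJ] at hbas hlaw ⊢
  have hthick := basis_thick hbas
  -- the upper bound of the counting function
  have hup : ∀ᶠ x : ℕ in atTop, (#(below J x) : ℝ) ≤ (K + 1) * √x := by
    have h1 := hlaw {1} (fun s hs => by rw [mem_singleton.1 hs]; exact Z.one_mem) (fun _ => 1) 1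
      one_pos
    filter_upwards [h1] with x hx
    simpa using hx
  have hms : ∀ x : ℕ, ∑ n ∈ range x, (rep J n : ℝ) ^ 2 ≤ 2401 * K * x := by
    intro x
    have h1 := Pool.Agent.Helper5.RC.mean_square chain_two (B := BR) (D := K) (fun j => by
      have := hE j
      push_cast
      exact this) x
    rw [← hJ] at h1
    refine le_trans (le_of_eq ?_) h1
    exact sum_congr rfl fun n _ => by rw [Pool.Agent.Helper80.RC.rep_eq]
  obtain ⟨zs, hzs⟩ := hZ.exists_eq_range ⟨1, Z.one_mem⟩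
  obtain ⟨ψ₁, l, hψ₁, hlim⟩ := exists_limitS J (fun n => 2 ^ (2 * n + 1 + 1)) zs
  have hy : Tendsto (fun n => 2 ^ (2 * ψ₁ n + 1 + 1) : ℕ → ℕ) atTop atTop := by
    refine (tendsto_pow_atTop_atTop_of_one_lt (r := 2) (by norm_num)).comp ?_
    refine tendsto_atTop_mono (fun n => ?_) tendsto_id
    have := hψ₁.id_le n
    simp only [id] at this ⊢
    omega
  obtain ⟨κ, hκ, ψ₂, hψ₂, hκlim⟩ := (isCompact_Icc (a := (1 / 2 : ℝ)) (b := K + 1)).tendsto_subseq'
    (x := fun n => (#(below J (2 ^ (2 * ψ₁ n + 1 + 1))) : ℝ) / √((2 : ℝ) ^ (2 * ψ₁ n + 1 + 1))) (by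
      refine Eventually.frequently ?_
      filter_upwards [hy.eventually hthick, hy.eventually hup] with n h1 h2
      have h3 : 0 < √((2 : ℝ) ^ (2 * ψ₁ n + 1 + 1)) := Real.sqrt_pos.2 (by positivity)
      push_cast at h1 h2
      rw [Set.mem_Icc, le_div_iff₀ h3, div_le_iff₀ h3]
      exact ⟨h1, h2⟩)
  have hκ0 : 0 < κ := by linarith [hκ.1]
  obtain ⟨g, hg⟩ : ∃ g : ℕ → ℕ, g = fun n => 2 * ψ₁ (ψ₂ n) + 1 := ⟨_, rfl⟩
  have hgm : StrictMono g := by
    intro a b hab
    have := hψ₁ (hψ₂ hab)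
    rw [hg]
    simp only
    omega
  have hgx : Tendsto (fun n => 2 ^ (g n + 1) : ℕ → ℕ) atTop atTop := by
    rw [hg]
    exact hy.comp hψ₂.tendsto_atTop
  -- the limit as a function on the circle
  have hex : ∀ z : Circle, ∃ v : ℂ, z ∈ Z →
      Tendsto (fun n => mean J (2 ^ (g n + 1)) z) atTop (nhds v) := by
    intro z
    by_cases hz : z ∈ Z
    · have hz' : z ∈ Set.range zs := by rw [← hzs]; exact hz
      obtain ⟨i, rfl⟩ := hz'
      refine ⟨l i, fun _ => ?_⟩
      rw [hg]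
      exact (hlim i).comp hψ₂.tendsto_atTop
    · exact ⟨0, fun h => absurd h hz⟩
  choose ρ hρ using hex
  have hκlim' : Tendsto (fun n => (#(below J (2 ^ (g n + 1))) : ℝ) / √((2 : ℝ) ^ (g n + 1))) atTop
      (nhds κ) := by
    rw [hg]
    exact hκlim
  obtain ⟨hρ1, hρpd, hρs, -⟩ := necS' Z (Filter.map (fun n => 2 ^ (g n + 1) : ℕ → ℕ) atTop) hgx J
    (2401 * K) (1 / 2) (by norm_num) (hgx hthick) (Eventually.of_forall hms) ρ fun z hz => by
      rw [tendsto_map'_iff]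
      exact hρ z hz
  refine ⟨g, ρ, κ, K / κ, hgm, fun n => ?_, hκ0, hκlim', hρ, hρ1, hρpd, hρs, ?_⟩
  · rw [hg]
    exact ⟨_, rfl⟩
  · intro S hS c
    have hform : ∑ s ∈ S, ∑ t ∈ S, c s * conj (c t) *
        ((if s / t = 1 then ((K / κ : ℝ) : ℂ) else 0) - ρ (s / t)) =
        ((K / κ * ∑ s ∈ S, ‖c s‖ ^ 2 : ℝ) : ℂ) - ∑ s ∈ S, ∑ t ∈ S, c s * conj (c t) * ρ (s / t) := by
      rw [← diag_form S c, ← sum_sub_distrib]
      refine sum_congr rfl fun s _ => ?_
      rw [← sum_sub_distrib]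
      exact sum_congr rfl fun t _ => mul_sub _ _ _
    have hpd := hρpd S hS c
    obtain ⟨Qf, hQf⟩ : ∃ Qf, Qf = ∑ s ∈ S, ∑ t ∈ S, c s * conj (c t) * ρ (s / t) := ⟨_, rfl⟩
    have hQlim : Tendsto (fun n => ∑ s ∈ S, ∑ t ∈ S,
        c s * conj (c t) * mean J (2 ^ (g n + 1)) (s / t)) atTop (nhds Qf) := by
      rw [hQf]
      exact tendsto_finsetSum _ fun s hs => tendsto_finsetSum _ fun t ht =>
        (hρ (s / t) (Z.div_mem (hS s hs) (hS t ht))).const_mul _
    have hre := (Complex.continuous_re.tendsto _).comp hQlim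
    have hle : Qf.re ≤ K / κ * ∑ s ∈ S, ‖c s‖ ^ 2 := by
      have h2 : ∀ ε : ℝ, 0 < ε → Qf.re ≤ (K * ∑ s ∈ S, ‖c s‖ ^ 2 + ε) / κ := by
        intro ε hε
        have h3 : Tendsto (fun n => (K * ∑ s ∈ S, ‖c s‖ ^ 2 + ε) /
            ((#(below J (2 ^ (g n + 1))) : ℝ) / √((2 : ℝ) ^ (g n + 1)))) atTop
            (nhds ((K * ∑ s ∈ S, ‖c s‖ ^ 2 + ε) / κ)) :=
          tendsto_const_nhds.div hκlim' hκ0.ne'
        refine le_of_tendsto_of_tendsto hre h3 ?_
        filter_upwards [hgx.eventually (hlaw S hS c ε hε), hgx.eventually hthick] with n h4 h5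
        have h6 : 0 < √((2 : ℝ) ^ (g n + 1)) := Real.sqrt_pos.2 (by positivity)
        push_cast at h4 h5
        have h7 : (0 : ℝ) < #(below J (2 ^ (g n + 1))) := lt_of_lt_of_le (by positivity) h5
        have h8 := mean_form J (2 ^ (g n + 1)) S c (fun s : Circle => s)
        simp only [Function.comp]
        rw [h8, Complex.ofReal_re, div_div_eq_mul_div]
        exact div_le_div_of_nonneg_right h4 h7.le
      have h3 : Tendsto (fun ε : ℝ => (K * ∑ s ∈ S, ‖c s‖ ^ 2 + ε) / κ)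
          (nhdsWithin 0 (Set.Ioi 0)) (nhds ((K * ∑ s ∈ S, ‖c s‖ ^ 2 + 0) / κ)) := by
        refine Tendsto.mono_left ?_ nhdsWithin_le_nhds
        exact ((tendsto_const_nhds.add tendsto_id).div_const κ)
      have h4 := ge_of_tendsto h3 (by
        filter_upwards [self_mem_nhdsWithin] with ε hε
        exact h2 ε hε)
      rw [add_zero] at h4
      refine h4.trans (le_of_eq ?_)
      ring
    rw [← hQf] at hform hpd
    rw [hform, Complex.le_def]
    rw [Complex.le_def] at hpd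
    constructor
    · rw [Complex.sub_re, Complex.ofReal_re, Complex.zero_re]
      linarith
    · rw [Complex.sub_im, Complex.ofReal_im, Complex.zero_im, ← hpd.2, Complex.zero_im, sub_zero]

end Pool.Agent.Helper80.JB
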