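import Pool.Agent.Helper80.JB.Law

/-!
# The complementary law, and one scale with Følner sets
-/

set_option autoImplicit false

open Finset Filter
open scoped ComplexConjugate ComplexOrder

namespace Pool.Agent.Helper80.JB

open Pool.Agent.Helper38.SP (PosDef quad)

theorem pow_four_add_le (a b : ℝ) : (a + b) ^ 4 ≤ 8 * (a ^ 4 + b ^ 4) := by
  nlinarith [sq_nonneg (a - b), sq_nonneg (a + b), sq_nonneg (a ^ 2 - b ^ 2),
    sq_nonneg (a ^ 2 + b ^ 2), mul_nonneg (sq_nonneg (a - b)) (sq_nonneg (a + b)),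
    mul_nonneg (sq_nonneg (a - b)) (sq_nonneg a), mul_nonneg (sq_nonneg (a - b)) (sq_nonneg b),
    sq_nonneg ((a - b) ^ 2)]

open Classical in
/-- **the complementary law** -/
theorem compl_law (Z : Subgroup Circle) {φ ρ : Circle → ℂ} {t K' : ℝ} (hφ1 : φ 1 = 1)
    (hφs : Summable fun z : Z => ‖φ z‖ ^ 4) (ht0 : 0 < t)
    (ht : PosDef (Z : Set Circle) fun z => φ z - (if z = 1 then (t : ℂ) else 0))
    (hρ1 : ρ 1 = 1) (hρs : Summable fun z : Z => ‖ρ z‖ ^ 4)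
    (hρ : PosDef (Z : Set Circle) fun z => (if z = 1 then (K' : ℂ) else 0) - ρ z) :
    ∃ (β : ℝ) (φ'' : Circle → ℂ), 0 < β ∧ β < 1 ∧ (∀ z, (β : ℂ) * ρ z + (1 - β : ℝ) * φ'' z = φ z) ∧
      φ'' 1 = 1 ∧ PosDef (Z : Set Circle) φ'' ∧ Summable fun z : Z => ‖φ'' z‖ ^ 4 := by
  have ht1 : t ≤ 1 := by
    have h := posDef_one Z.one_mem ht
    simp only [if_true, hφ1] at h
    have h2 : (0 : ℂ) ≤ ((1 - t : ℝ) : ℂ) := by
      push_cast
      exact h
    have := Complex.zero_le_real.1 h2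
    linarith
  have hK1 : 1 ≤ K' := by
    have h := posDef_one Z.one_mem hρ
    simp only [if_true, hρ1] at h
    have h2 : (0 : ℂ) ≤ ((K' - 1 : ℝ) : ℂ) := by
      push_cast
      exact h
    have := Complex.zero_le_real.1 h2
    linarith
  obtain ⟨β, hβ⟩ : ∃ β : ℝ, β = t / (2 * K') := ⟨_, rfl⟩
  have hβ0 : 0 < β := by rw [hβ]; positivity
  have hβ1 : β ≤ 1 / 2 := by
    rw [hβ, div_le_iff₀ (by positivity)]
    linarith
  have hne : (1 - β : ℝ) ≠ 0 := by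
    have : 0 < 1 - β := by linarith
    exact this.ne'
  have hneC : ((1 - β : ℝ) : ℂ) ≠ 0 := by exact_mod_cast hne
  obtain ⟨φ'', hφ''⟩ : ∃ φ'' : Circle → ℂ,
    φ'' = fun z => (((1 - β)⁻¹ : ℝ) : ℂ) * (φ z - β * ρ z) := ⟨_, rfl⟩
  have hinv : ((1 - β : ℝ) : ℂ) * (((1 - β)⁻¹ : ℝ) : ℂ) = 1 := by
    rw [← Complex.ofReal_mul, mul_inv_cancel₀ hne, Complex.ofReal_one]
  have hcomb : ∀ z, (β : ℂ) * ρ z + (1 - β : ℝ) * φ'' z = φ z := by
    intro z
    rw [hφ'']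
    simp only
    rw [← mul_assoc, hinv]
    ring
  refine ⟨β, φ'', hβ0, by linarith, hcomb, ?_, ?_, ?_⟩
  · have h := hcomb 1
    rw [hρ1, hφ1, mul_one] at h
    have h2 : ((1 - β : ℝ) : ℂ) * φ'' 1 = ((1 - β : ℝ) : ℂ) * 1 := by
      rw [mul_one]
      push_cast at h ⊢
      linear_combination h
    exact mul_left_cancel₀ hneC h2
  · have h1 : PosDef (Z : Set Circle) fun z => (φ z - (if z = 1 then (t : ℂ) else 0)) +
        ((if z = 1 then ((t / 2 : ℝ) : ℂ) else 0) +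
          (β : ℂ) * ((if z = 1 then (K' : ℂ) else 0) - ρ z)) :=
      posDef_add ht (posDef_add (posDef_delta _ (by linarith)) (posDef_smul hρ hβ0.le))
    have h2 := posDef_smul h1 (r := (1 - β)⁻¹) (by
      have : 0 < 1 - β := by linarith
      positivity)
    have h3 : (fun z => (((1 - β)⁻¹ : ℝ) : ℂ) * ((φ z - (if z = 1 then (t : ℂ) else 0)) +
        ((if z = 1 then ((t / 2 : ℝ) : ℂ) else 0) +
          (β : ℂ) * ((if z = 1 then (K' : ℂ) else 0) - ρ z)))) = φ'' := by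
      rw [hφ'']
      funext z
      congr 1
      by_cases hz : z = 1
      · rw [if_pos hz, if_pos hz, if_pos hz]
        have h4 : (β : ℂ) * K' = t / 2 := by
          rw [hβ]
          push_cast
          have : (K' : ℂ) ≠ 0 := by exact_mod_cast (by linarith : K' ≠ 0)
          field_simp
        push_cast
        linear_combination h4
      · rw [if_neg hz, if_neg hz, if_neg hz]
        ring
    rwa [h3] at h2
  · refine Summable.of_nonneg_of_le (fun z => by positivity) (fun z => ?_)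
      ((hφs.add hρs).mul_left (((1 - β)⁻¹) ^ 4 * 8))
    rw [hφ'']
    simp only
    rw [norm_mul, mul_pow, Complex.norm_real, Real.norm_eq_abs, abs_of_nonneg (by
      have : 0 < 1 - β := by linarith
      positivity), mul_assoc]
    refine mul_le_mul_of_nonneg_left ?_ (by
      have : 0 < 1 - β := by linarith
      positivity)
    have h1 : ‖φ z - β * ρ z‖ ≤ ‖φ z‖ + ‖ρ z‖ := by
      refine (norm_sub_le _ _).trans ?_
      rw [norm_mul, Complex.norm_real, Real.norm_eq_abs, abs_of_nonneg hβ0.le]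
      have h2 : β * ‖ρ z‖ ≤ 1 * ‖ρ z‖ :=
        mul_le_mul_of_nonneg_right (by linarith) (norm_nonneg _)
      linarith
    exact (pow_le_pow_left₀ (norm_nonneg _) h1 4).trans (pow_four_add_le _ _)

/-- **one scale** for all finite sets of frequencies -/
theorem oneX_all [DecidableEq Circle] (Z : Subgroup Circle) (φ : Circle → ℂ)
    (hpd : PosDef (Z : Set Circle) φ) (h1 : φ 1 = 1) {Φ : ℝ}
    (hΦ : ∀ S : Finset Circle, (∀ s ∈ S, s ∈ Z) → ∑ s ∈ S, ‖φ s‖ ^ 4 ≤ Φ)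
    {Θ : ℝ} (hΘ : 0 < Θ) {K : ℝ} (D0 : ℕ → Finset ℕ)
    (hD0 : ∀ j, ((D0 j).card : ℝ) ≤ K * √((2 : ℝ) ^ j))
    (F : Finset Circle) (hF : ∀ ζ ∈ F, ζ ∈ Z) (s : ℕ) (hs : 0 < s) :
    ∀ᶠ j : ℕ in atTop, ∃ B : Finset ℕ, (∀ b ∈ B, 2 * b < 2 ^ j) ∧
      ((quad B).card : ℝ) ≤ 4 * (Θ ^ 4 * (Φ + 1) + 4 * Θ ^ 2 + 4 * Θ) * 2 ^ j ∧
      (∀ ζ ∈ insert 1 F, ‖∑ b ∈ B, (ζ : ℂ) ^ (2 ^ j + b) -
        φ ζ * ((Θ * √((2 : ℝ) ^ j) / 2 : ℝ) : ℂ)‖ ≤ (1 + Θ) * (√((2 : ℝ) ^ j) / s)) ∧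
      ((B ∩ D0 j).card : ℝ) ≤ √((2 : ℝ) ^ j) / s := by
  classical
  have hs0 : (0 : ℝ) < s := by exact_mod_cast hs
  obtain ⟨S, hSne, hS⟩ := Pool.Agent.Helper80.SP.folner (G := Z) (F.subtype fun z => z ∈ Z)
    (1 / (2 * s)) (by positivity)
  refine Pool.Agent.Helper38.JB.oneX Z φ hpd h1 hΦ hΘ D0 hD0 F hF s hs
    (S.map ⟨Subtype.val, Subtype.val_injective⟩) (hSne.map) (fun t ht => ?_) fun z hz => ?_
  · rw [Finset.mem_map] at ht
    obtain ⟨w, _, rfl⟩ := ht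
    exact w.2
  · have h2 := hS ⟨z, hF z hz⟩ (mem_subtype.2 hz)
    rw [card_map]
    refine h2.trans ?_
    have h3 : #(S.filter fun t => t * (⟨z, hF z hz⟩ : Z) ∈ S) ≤
        #((S.map ⟨Subtype.val, Subtype.val_injective⟩).filter
          fun t => t * z ∈ S.map ⟨Subtype.val, Subtype.val_injective⟩) := by
      refine card_le_card_of_injOn (fun t : Z => (t : Circle)) ?_ ?_
      · intro t ht
        have ht' := mem_filter.1 (mem_coe.1 ht)
        refine mem_coe.2 (mem_filter.2 ⟨?_, ?_⟩)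
        · exact Finset.mem_map.2 ⟨t, ht'.1, rfl⟩
        · exact Finset.mem_map.2 ⟨t * ⟨z, hF z hz⟩, ht'.2, rfl⟩
      · intro a _ b _ h
        exact Subtype.val_injective h
    exact_mod_cast h3

end Pool.Agent.Helper80.JB
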